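import Pool.Agent.H951R3.PB.F9a

/-!
# Abstract counting argument with additional places of positive mean energy
-/

set_option autoImplicit false

namespace Pool.Agent.TH450.NM

open Real Finset

/-- a set of at least four points divided into two cells has at least a third of its pairs inside
the cells -/
theorem two_cells {n : ℕ} (hn : 4 ≤ n) (cell : Fin n → Fin 2) :
    (n : ℝ) * (n - 1) / 2 ≤ 3 * ∑ a : Fin n, ∑ b ∈ Ioi a, (if cell a = cell b then (1 : ℝ) else 0) := by
  classical
  set u : Fin n → ℝ := fun a => if cell a = 0 then 1 else -1 with hu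
  have huu : ∀ a, u a * u a = 1 := by
    intro a
    simp only [hu]
    split_ifs <;> norm_num
  have hpair : ∀ a b, (if cell a = cell b then (1 : ℝ) else 0) = (1 + u a * u b) / 2 := by
    intro a b
    simp only [hu]
    have ha : cell a = 0 ∨ cell a = 1 := by
      have := (cell a).2
      rcases Nat.lt_or_ge (cell a : ℕ) 1 with h | h
      · left; ext; simp; omega
      · right; ext; simp; omega
    have hb : cell b = 0 ∨ cell b = 1 := by
      have := (cell b).2
      rcases Nat.lt_or_ge (cell b : ℕ) 1 with h | h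
      · left; ext; simp; omega
      · right; ext; simp; omega
    rcases ha with ha | ha <;> rcases hb with hb | hb <;> rw [ha, hb] <;> norm_num
  have hsq : (∑ a, u a) ^ 2 = n + 2 * ∑ a : Fin n, ∑ b ∈ Ioi a, u a * u b := by
    have h1 : (∑ a, u a) ^ 2 = ∑ a, ∑ b, u a * u b := by
      rw [sq, Finset.sum_mul_sum]
    rw [h1]
    have h2 : ∀ a : Fin n, ∑ b, u a * u b = u a * u a + ∑ b ∈ Ioi a, u a * u b +
        ∑ b ∈ Iio a, u a * u b := by
      intro a
      have h3 : (Finset.univ : Finset (Fin n)) = insert a (Ioi a ∪ Iio a) := by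
        ext b
        simp only [mem_univ, mem_insert, mem_union, mem_Ioi, mem_Iio, true_iff]
        rcases lt_trichotomy a b with h | h | h
        · exact Or.inr (Or.inl h)
        · exact Or.inl h.symm
        · exact Or.inr (Or.inr h)
      rw [h3, Finset.sum_insert (by simp), Finset.sum_union ?_]
      · ring
      · rw [Finset.disjoint_left]
        intro b hb hb'
        rw [mem_Ioi] at hb
        rw [mem_Iio] at hb'
        exact absurd (hb.trans hb') (lt_irrefl _)
    simp_rw [h2]
    rw [Finset.sum_add_distrib, Finset.sum_add_distrib]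
    have h4 : ∑ a : Fin n, u a * u a = n := by
      simp [huu]
    have h5 : ∑ a : Fin n, ∑ b ∈ Iio a, u a * u b = ∑ a : Fin n, ∑ b ∈ Ioi a, u a * u b := by
      rw [Finset.sum_sigma', Finset.sum_sigma']
      refine Finset.sum_bij' (fun p _ => ⟨p.2, p.1⟩) (fun p _ => ⟨p.2, p.1⟩) ?_ ?_ ?_ ?_ ?_
      · rintro ⟨a, b⟩ h
        simpa using h
      · rintro ⟨a, b⟩ h
        simpa using h
      · rintro ⟨a, b⟩ h
        rfl
      · rintro ⟨a, b⟩ h
        rfl
      · rintro ⟨a, b⟩ h
        exact mul_comm _ _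
    rw [h4, h5]
    ring
  have hS : ∑ a : Fin n, ∑ b ∈ Ioi a, (if cell a = cell b then (1 : ℝ) else 0) =
      ((n : ℝ) * ((n : ℝ) - 1) / 2 + ∑ a : Fin n, ∑ b ∈ Ioi a, u a * u b) / 2 := by
    have h1 := Pool.Agent.H951R3.PB.sum_Ioi_const n 1
    rw [mul_one] at h1
    rw [← h1, ← Finset.sum_add_distrib, Finset.sum_div]
    refine Finset.sum_congr rfl fun a _ => ?_
    rw [← Finset.sum_add_distrib, Finset.sum_div]
    exact Finset.sum_congr rfl fun b _ => hpair a b
  rw [hS]
  have h1 : 0 ≤ (∑ a, u a) ^ 2 := sq_nonneg _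
  have h2 : (4 : ℝ) ≤ n := by exact_mod_cast hn
  nlinarith

theorem count_W {V : Type*} [DecidableEq V] {d : ℕ} (hd : 2 ≤ d) {I : Type*} [Fintype I]
    [DecidableEq I] (n : I → ℝ) (hn1 : ∀ i, 1 ≤ n i) (hn2 : ∀ i, n i ≤ 2) (m : I → ℝ)
    (g : I → V → V → ℝ) {B c A : ℝ} (hB : 0 ≤ B) (hc : 0 < c) (hA : 4 * (c + 1) * B + 2 ≤ A)
    (hm : ∀ i, -B ≤ m i) (X : Finset V)
    (loss : ∀ i, ∀ (k : ℕ) (x : Fin (d ^ k) → V), Function.Injective x → (∀ j, x j ∈ X) →
      -((d : ℝ) ^ k * (k * (m i + B))) ≤ ∑ a, ∑ b ∈ Ioi a, g i (x a) (x b))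
    {M : ℕ} (gain : ∀ i, ∃ cell : V → Fin M, ∀ x ∈ X, ∀ y ∈ X, x ≠ y → cell x = cell y →
      c * m i - B ≤ g i x y)
    (i₀ : I) {p₀ : ℝ} (hp₀ : 0 ≤ p₀) {M' : ℕ} (aux : ∃ cell' : V → Fin M', ∀ x ∈ X, ∀ y ∈ X,
      x ≠ y → cell' x = cell' y → A + p₀ ≤ g i₀ x y)
    {J : Type*} [Fintype J] (p : J → ℝ) (hp : ∀ j, 0 ≤ p j) (g' : J → V → V → ℝ)
    (two : ∀ j, ∃ cell : V → Fin 2, ∀ x ∈ X, ∀ y ∈ X, x ≠ y →
      -(p j / 2) ≤ g' j x y ∧ (cell x = cell y → 4 * p j ≤ g' j x y))
    {μ : ℝ} (hμ : μ ≤ 0 ∨ ∃ i, μ ≤ m i) {R : ℝ}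
    (hR : ∑ i, (1 + max (m i) 0) ≤ R * (1 + max μ 0 + (p₀ + ∑ j, p j)))
    (glob : ∀ x ∈ X, ∀ y ∈ X, x ≠ y →
      ∑ i, n i * g i x y + ∑ j, g' j x y ≤
        2 * (min (c / 16) (1 / 16)) * (1 + max μ 0 + (p₀ + ∑ j, p j))) :
    (X.card : ℝ) ≤ M * M' * d * (4 + 32 * (1 + B) * (1 + 1 / c) * R * Nat.log d X.card) := by
  set P : ℝ := p₀ + ∑ j, p j with hP
  have hsp0 : 0 ≤ ∑ j, p j := Finset.sum_nonneg fun j _ => hp j
  have hP0 : 0 ≤ P := by positivity
  have hR0 : 0 ≤ R := by
    have h1 : 0 ≤ ∑ i, (1 + max (m i) 0) := Finset.sum_nonneg fun i _ => by positivity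
    have h2 : 0 < 1 + max μ 0 + P := by positivity
    by_contra hcon
    push Not at hcon
    have := mul_neg_of_neg_of_pos hcon h2
    linarith
  obtain ⟨cell', hcell'⟩ := aux
  -- the place with the largest size
  obtain ⟨i₁, -, hi₁⟩ := Finset.exists_max_image (Finset.univ : Finset I) m ⟨i₀, Finset.mem_univ _⟩
  obtain ⟨cell, hcell⟩ := gain i₁
  rcases X.eq_empty_or_nonempty with rfl | hX
  · simp
    positivity
  -- pigeonhole
  obtain ⟨pp, hpp⟩ : ∃ p : Fin M × Fin M',
      X.card ≤ (M * M') * (X.filter fun x => (cell x, cell' x) = p).card := by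
    by_contra hcon
    push Not at hcon
    have h1 : X.card = ∑ p : Fin M × Fin M', (X.filter fun x => (cell x, cell' x) = p).card :=
      Finset.card_eq_sum_card_fiberwise (fun x _ => Finset.mem_univ _)
    obtain ⟨x₀, hx₀⟩ := hX
    have hne : (Finset.univ : Finset (Fin M × Fin M')).Nonempty :=
      ⟨(cell x₀, cell' x₀), Finset.mem_univ _⟩
    have h2 : ∑ p : Fin M × Fin M', (M * M') * (X.filter fun x => (cell x, cell' x) = p).card <
        ∑ _p : Fin M × Fin M', X.card := Finset.sum_lt_sum_of_nonempty hne fun p _ => hcon p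
    rw [← Finset.mul_sum, ← h1, Finset.sum_const, Finset.card_univ, Fintype.card_prod,
      Fintype.card_fin, Fintype.card_fin, smul_eq_mul] at h2
    exact absurd h2 (lt_irrefl _)
  set Y := X.filter fun x => (cell x, cell' x) = pp with hY
  have hYpos : Y.card ≠ 0 := by
    intro h0
    rw [h0, mul_zero] at hpp
    exact hX.card_pos.ne' (Nat.le_zero.1 hpp)
  set k := Nat.log d Y.card with hk
  have hk1 : d ^ k ≤ Y.card := Nat.pow_log_le_self d hYpos
  have hk2 : Y.card < d ^ (k + 1) := Nat.lt_pow_succ_log_self (by omega) _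
  obtain ⟨Z, hZY, hZ⟩ := Finset.exists_subset_card_eq hk1
  let e : Fin (d ^ k) ≃ Z := (Finset.equivFinOfCardEq hZ).symm
  let x : Fin (d ^ k) → V := fun j => (e j : V)
  have hxinj : Function.Injective x := fun a b h => e.injective (Subtype.ext h)
  have hxY : ∀ j, x j ∈ Y := fun j => hZY (e j).2
  have hxX : ∀ j, x j ∈ X := fun j => (Finset.mem_filter.1 (hxY j)).1
  have hxp : ∀ j, (cell (x j), cell' (x j)) = pp := fun j => (Finset.mem_filter.1 (hxY j)).2
  have hxne : ∀ a b : Fin (d ^ k), b ∈ Ioi a → x a ≠ x b := by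
    intro a b hab h
    exact (Finset.mem_Ioi.1 hab).ne (hxinj h)
  -- notation
  set N : ℝ := ((d ^ k : ℕ) : ℝ) with hN
  have hN1 : 1 ≤ N := by
    rw [hN]
    exact_mod_cast Nat.one_le_pow _ _ (by omega)
  set h : ℝ := m i₁ + B with hh
  have hh0 : 0 ≤ h := by
    have := hm i₁
    rw [hh]
    linarith
  have hmi : ∀ i, m i + B ≤ h := fun i => by
    have := hi₁ i (Finset.mem_univ _)
    rw [hh]
    linarith
  have hμh : max μ 0 ≤ h := by
    rcases hμ with h1 | ⟨i, h1⟩
    · rw [max_eq_right h1]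
      exact hh0
    · refine max_le ?_ hh0
      have := hmi i
      linarith
  -- the final step from the bound for `N`
  have hkX : (k : ℝ) ≤ Nat.log d X.card := by
    have : k ≤ Nat.log d X.card := Nat.log_mono_right (Finset.card_filter_le _ _)
    exact_mod_cast this
  have hXN : (X.card : ℝ) ≤ M * M' * (d * N) := by
    have h1 : X.card ≤ (M * M') * (d * d ^ k) := by
      refine hpp.trans (Nat.mul_le_mul_left _ ?_)
      rw [← pow_succ']
      exact hk2.le
    have h2 : ((X.card : ℕ) : ℝ) ≤ (((M * M') * (d * d ^ k) : ℕ) : ℝ) := by exact_mod_cast h1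
    rw [hN]
    push_cast at h2 ⊢
    exact h2
  suffices hN2 : N ≤ 4 + 32 * (1 + B) * (1 + 1 / c) * R * k by
    calc (X.card : ℝ) ≤ M * M' * (d * N) := hXN
      _ = M * M' * d * N := by ring
      _ ≤ M * M' * d * (4 + 32 * (1 + B) * (1 + 1 / c) * R * k) :=
          mul_le_mul_of_nonneg_left hN2 (by positivity)
      _ ≤ _ := by
          refine mul_le_mul_of_nonneg_left ?_ (by positivity)
          have : 32 * (1 + B) * (1 + 1 / c) * R * (k : ℝ) ≤
              32 * (1 + B) * (1 + 1 / c) * R * Nat.log d X.card :=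
            mul_le_mul_of_nonneg_left hkX (by positivity)
          linarith
  by_cases hN4 : N < 4
  · have : 0 ≤ 32 * (1 + B) * (1 + 1 / c) * R * (k : ℝ) := by positivity
    linarith
  push Not at hN4
  have hN4' : 4 ≤ d ^ k := by
    rw [hN] at hN4
    exact_mod_cast hN4
  -- pair sums
  let s : I → ℝ := fun i => ∑ a, ∑ b ∈ Ioi a, g i (x a) (x b)
  let s' : J → ℝ := fun j => ∑ a, ∑ b ∈ Ioi a, g' j (x a) (x b)
  have hloss : ∀ i, -(2 * (N * (k * (m i + B)))) ≤ n i * s i := by
    intro i
    have h1 := loss i k x hxinj hxX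
    have h3 : 0 ≤ N * (k * (m i + B)) := by
      have : 0 ≤ m i + B := by
        have := hm i
        linarith
      positivity
    have h4 : -(N * (k * (m i + B))) ≤ s i := by
      rw [hN]
      push_cast
      exact h1
    have h5 := hn1 i
    have h6 := hn2 i
    rcases le_or_gt 0 (s i) with h7 | h7
    · have : 0 ≤ n i * s i := by positivity
      linarith
    · nlinarith
  -- the additional places
  have hs' : ∀ j, N * (N - 1) / 2 * p j ≤ s' j := by
    intro j
    obtain ⟨cl, hcl⟩ := two j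
    have h1 := two_cells hN4' (fun a => cl (x a))
    have h2 : ∑ a : Fin (d ^ k), ∑ b ∈ Ioi a,
        (9 / 2 * p j * (if cl (x a) = cl (x b) then (1 : ℝ) else 0) + -(p j / 2)) ≤ s' j := by
      refine Finset.sum_le_sum fun a _ => Finset.sum_le_sum fun b hb => ?_
      have h3 := hcl _ (hxX a) _ (hxX b) (hxne a b hb)
      split_ifs with h4
      · have := h3.2 h4
        linarith
      · have := h3.1
        linarith
    refine le_trans ?_ h2
    have h3 : ∑ a : Fin (d ^ k), ∑ b ∈ Ioi a,
        (9 / 2 * p j * (if cl (x a) = cl (x b) then (1 : ℝ) else 0) + -(p j / 2)) =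
        9 / 2 * p j * ∑ a : Fin (d ^ k), ∑ b ∈ Ioi a,
          (if cl (x a) = cl (x b) then (1 : ℝ) else 0) + N * (N - 1) / 2 * -(p j / 2) := by
      rw [hN, ← Pool.Agent.H951R3.PB.sum_Ioi_const, Finset.mul_sum, ← Finset.sum_add_distrib]
      refine Finset.sum_congr rfl fun a _ => ?_
      rw [Finset.mul_sum, ← Finset.sum_add_distrib]
    rw [h3]
    have h4 := mul_le_mul_of_nonneg_left h1 (show 0 ≤ 3 / 2 * p j by have := hp j; positivity)
    rw [← hN] at h4
    linarith
  have hglob : ∑ i, n i * s i + ∑ j, s' j ≤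
      N * (N - 1) / 2 * (2 * (min (c / 16) (1 / 16)) * (1 + h + P)) := by
    have h1 : ∑ i, n i * s i = ∑ a, ∑ b ∈ Ioi a, ∑ i, n i * g i (x a) (x b) := by
      simp only [s, Finset.mul_sum]
      rw [Finset.sum_comm]
      refine Finset.sum_congr rfl fun a _ => ?_
      rw [Finset.sum_comm]
    have h1' : ∑ j, s' j = ∑ a, ∑ b ∈ Ioi a, ∑ j, g' j (x a) (x b) := by
      simp only [s']
      rw [Finset.sum_comm]
      refine Finset.sum_congr rfl fun a _ => ?_
      rw [Finset.sum_comm]
    rw [h1, h1', ← sum_add_distrib, ← Pool.Agent.H951R3.PB.sum_Ioi_const]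
    refine Finset.sum_le_sum fun a _ => ?_
    rw [← sum_add_distrib]
    refine Finset.sum_le_sum fun b hb => ?_
    refine (glob _ (hxX a) _ (hxX b) (hxne a b hb)).trans ?_
    refine mul_le_mul_of_nonneg_left (by linarith) ?_
    have : 0 ≤ min (c / 16) (1 / 16) := le_min (by positivity) (by norm_num)
    positivity
  have hA0 : 0 ≤ A := by
    have : 0 ≤ 4 * (c + 1) * B := by positivity
    linarith
  have hgain1 : N * (N - 1) / 2 * (c * m i₁ - B) ≤ s i₁ := by
    rw [hN, ← Pool.Agent.H951R3.PB.sum_Ioi_const]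
    refine Finset.sum_le_sum fun a _ => Finset.sum_le_sum fun b hb => ?_
    refine hcell _ (hxX a) _ (hxX b) (hxne a b hb) ?_
    have h1 := (hxp a).trans (hxp b).symm
    exact (Prod.ext_iff.1 h1).1
  have hgain0 : N * (N - 1) / 2 * (A + p₀) ≤ s i₀ := by
    rw [hN, ← Pool.Agent.H951R3.PB.sum_Ioi_const]
    refine Finset.sum_le_sum fun a _ => Finset.sum_le_sum fun b hb => ?_
    refine hcell' _ (hxX a) _ (hxX b) (hxne a b hb) ?_
    have h1 := (hxp a).trans (hxp b).symm
    exact (Prod.ext_iff.1 h1).2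
  have hNN : 0 ≤ N * (N - 1) / 2 := by
    have : 0 ≤ N - 1 := by linarith
    positivity
  set q := N * (N - 1) / 2 with hq
  have hsJ : q * ∑ j, p j ≤ ∑ j, s' j := by
    rw [Finset.mul_sum]
    exact Finset.sum_le_sum fun j _ => hs' j
  have hcm : c * m i₁ - B = c * h - (c + 1) * B := by
    rw [hh]
    ring
  rw [hcm] at hgain1
  -- the total loss
  set T : ℝ := ∑ i, 2 * (N * (k * (m i + B))) with hT
  have hTi : ∀ i, 0 ≤ 2 * (N * (k * (m i + B))) := fun i => by
    have : 0 ≤ m i + B := by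
      have := hm i
      linarith
    positivity
  have hTR : T ≤ 2 * (N * k) * ((1 + B) * (R * (1 + h + P))) := by
    have h1 : ∀ i, m i + B ≤ (1 + B) * (1 + max (m i) 0) := by
      intro i
      have h2 : m i ≤ max (m i) 0 := le_max_left _ _
      have h3 : 0 ≤ max (m i) 0 := le_max_right _ _
      have h4 : 0 ≤ B * max (m i) 0 := by positivity
      nlinarith
    have h2 : ∑ i, (m i + B) ≤ (1 + B) * (R * (1 + h + P)) := by
      calc ∑ i, (m i + B) ≤ ∑ i, (1 + B) * (1 + max (m i) 0) :=
            Finset.sum_le_sum fun i _ => h1 i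
        _ = (1 + B) * ∑ i, (1 + max (m i) 0) := by rw [Finset.mul_sum]
        _ ≤ (1 + B) * (R * (1 + max μ 0 + P)) :=
            mul_le_mul_of_nonneg_left hR (by linarith)
        _ ≤ (1 + B) * (R * (1 + h + P)) := by
            refine mul_le_mul_of_nonneg_left (mul_le_mul_of_nonneg_left (by linarith) hR0)
              (by linarith)
    calc T = 2 * (N * k) * ∑ i, (m i + B) := by
          rw [hT, Finset.mul_sum]
          exact Finset.sum_congr rfl fun i _ => by ring
      _ ≤ _ := mul_le_mul_of_nonneg_left h2 (by positivity)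
  -- the two special places
  have hspecial : q * (1 / 2 * (c * h + (A + p₀) / 2)) - T ≤
      ∑ i, n i * s i := by
    have hcB : 0 ≤ (c + 1) * B := by positivity
    have h0p : 0 ≤ q * p₀ := by positivity
    by_cases h01 : i₁ = i₀
    · have h1 : q * (1 / 2 * (c * h + (A + p₀) / 2)) ≤ n i₀ * s i₀ := by
        rw [h01] at hgain1
        have h2 : 0 ≤ s i₀ := le_trans (by positivity) hgain0
        have h3 : s i₀ ≤ n i₀ * s i₀ := by
          have := hn1 i₀
          nlinarith
        have h4 : q * (1 / 2 * (c * h + (A + p₀) / 2)) ≤ s i₀ := by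
          have h5 : q * (4 * ((c + 1) * B) + 2) ≤ q * A := by
            refine mul_le_mul_of_nonneg_left ?_ hNN
            linarith
          have h9 : 0 ≤ q * ((c + 1) * B) := mul_nonneg hNN hcB
          have e1 : q * (1 / 2 * (c * h + (A + p₀) / 2)) =
            1 / 2 * (q * (c * h)) + 1 / 4 * (q * A) + 1 / 4 * (q * p₀) := by ring
          have e2 : q * (4 * ((c + 1) * B) + 2) = 4 * (q * ((c + 1) * B)) + 2 * q := by ring
          have e3 : q * (c * h - (c + 1) * B) = q * (c * h) - q * ((c + 1) * B) := by ring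
          have e4 : q * (A + p₀) = q * A + q * p₀ := by ring
          rw [e1]
          rw [e2] at h5
          rw [e3] at hgain1
          rw [e4] at hgain0
          linarith
        linarith
      rw [← Finset.add_sum_erase _ _ (Finset.mem_univ i₀)]
      have h2 : -T ≤ ∑ i ∈ Finset.univ.erase i₀, n i * s i := by
        calc -T ≤ ∑ i ∈ Finset.univ.erase i₀, -(2 * (N * (k * (m i + B)))) := by
              rw [Finset.sum_neg_distrib, neg_le_neg_iff]
              exact Finset.sum_le_sum_of_subset_of_nonneg (Finset.subset_univ _)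
                fun i _ _ => hTi i
          _ ≤ _ := Finset.sum_le_sum fun i _ => hloss i
      linarith
    · have h1 : q * (c * h - 2 * ((c + 1) * B)) ≤ n i₁ * s i₁ := by
        have h5 := hn1 i₁
        have h6 := hn2 i₁
        have h7 : n i₁ * (q * (c * h - (c + 1) * B)) ≤ n i₁ * s i₁ :=
          mul_le_mul_of_nonneg_left hgain1 (by linarith)
        refine le_trans ?_ h7
        have h8 : 0 ≤ q * (c * h) := by positivity
        have h9 : 0 ≤ q * ((c + 1) * B) := by positivity
        have e1 : q * (c * h - 2 * ((c + 1) * B)) = q * (c * h) - 2 * (q * ((c + 1) * B)) := by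
          ring
        have e2 : n i₁ * (q * (c * h - (c + 1) * B)) =
            n i₁ * (q * (c * h)) - n i₁ * (q * ((c + 1) * B)) := by ring
        rw [e1, e2]
        have h10 : 1 * (q * (c * h)) ≤ n i₁ * (q * (c * h)) := mul_le_mul_of_nonneg_right h5 h8
        have h11 : n i₁ * (q * ((c + 1) * B)) ≤ 2 * (q * ((c + 1) * B)) :=
          mul_le_mul_of_nonneg_right h6 h9
        linarith
      have h2 : q * (A + p₀) ≤ n i₀ * s i₀ := by
        have h2 : 0 ≤ s i₀ := le_trans (by positivity) hgain0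
        have h3 := mul_le_mul_of_nonneg_right (hn1 i₀) h2
        linarith
      rw [← Finset.add_sum_erase _ _ (Finset.mem_univ i₀),
        ← Finset.add_sum_erase _ _ (Finset.mem_erase.2 ⟨h01, Finset.mem_univ i₁⟩)]
      have h3 : -T ≤ ∑ i ∈ (Finset.univ.erase i₀).erase i₁, n i * s i := by
        calc -T ≤ ∑ i ∈ (Finset.univ.erase i₀).erase i₁, -(2 * (N * (k * (m i + B)))) := by
              rw [Finset.sum_neg_distrib, neg_le_neg_iff]
              exact Finset.sum_le_sum_of_subset_of_nonneg (Finset.subset_univ _)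
                fun i _ _ => hTi i
          _ ≤ _ := Finset.sum_le_sum fun i _ => hloss i
      have h5 : q * (4 * ((c + 1) * B) + 2) ≤ q * A := by
        refine mul_le_mul_of_nonneg_left ?_ hNN
        linarith
      have h8 : 0 ≤ q * (c * h) := by positivity
      have h9 : 0 ≤ q * A := by positivity
      have e1 : q * (1 / 2 * (c * h + (A + p₀) / 2)) =
        1 / 2 * (q * (c * h)) + 1 / 4 * (q * A) + 1 / 4 * (q * p₀) := by ring
      have e2 : q * (4 * ((c + 1) * B) + 2) = 4 * (q * ((c + 1) * B)) + 2 * q := by ring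
      have e3 : q * (c * h - 2 * ((c + 1) * B)) = q * (c * h) - 2 * (q * ((c + 1) * B)) := by ring
      have e4 : q * (A + p₀) = q * A + q * p₀ := by ring
      rw [e1]
      rw [e2] at h5
      rw [e3] at h1
      rw [e4] at h2
      linarith
  -- conclusion for N
  have hmain : q * (3 / 8 * (c * h + 1) + P / 8) ≤ T := by
    have h1 : q * (1 / 2 * (c * h + (A + p₀) / 2)) - T + q * ∑ j, p j ≤
        q * (2 * (min (c / 16) (1 / 16)) * (1 + h + P)) :=
      (add_le_add hspecial hsJ).trans hglob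
    have h2 : 2 * (min (c / 16) (1 / 16)) * (1 + h + P) ≤ 1 / 8 + c * h / 8 + P / 8 := by
      have h3 : min (c / 16) (1 / 16) ≤ 1 / 16 := min_le_right _ _
      have h4 : min (c / 16) (1 / 16) ≤ c / 16 := min_le_left _ _
      have h5 : min (c / 16) (1 / 16) * h ≤ c / 16 * h := mul_le_mul_of_nonneg_right h4 hh0
      have h6 : min (c / 16) (1 / 16) * P ≤ 1 / 16 * P := mul_le_mul_of_nonneg_right h3 hP0
      have e1 : 2 * (min (c / 16) (1 / 16)) * (1 + h + P) = 2 * min (c / 16) (1 / 16) +
        2 * (min (c / 16) (1 / 16) * h) + 2 * (min (c / 16) (1 / 16) * P) := by ring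
      rw [e1]
      linarith
    have h3 : q * (2 * (min (c / 16) (1 / 16)) * (1 + h + P)) ≤
        q * (1 / 8 + c * h / 8 + P / 8) :=
      mul_le_mul_of_nonneg_left h2 hNN
    have hA2 : 2 ≤ A := by
      have : 0 ≤ 4 * (c + 1) * B := by positivity
      linarith
    have h4 : q * 2 ≤ q * A := mul_le_mul_of_nonneg_left hA2 hNN
    have h5 : q * P = q * p₀ + q * ∑ j, p j := by
      rw [hP]
      ring
    have h6 : 0 ≤ q * ∑ j, p j := by positivity
    have e1 : q * (1 / 2 * (c * h + (A + p₀) / 2)) =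
      1 / 2 * (q * (c * h)) + 1 / 4 * (q * A) + 1 / 4 * (q * p₀) := by ring
    have e2 : q * (1 / 8 + c * h / 8 + P / 8) = q / 8 + q * (c * h) / 8 + q * P / 8 := by ring
    have e3 : q * (3 / 8 * (c * h + 1) + P / 8) =
      3 / 8 * (q * (c * h)) + 3 / 8 * q + q * P / 8 := by ring
    rw [e1] at h1
    rw [e2] at h3
    rw [e3]
    linarith
  have hN0 : 0 < N := by linarith
  have hch : 0 < 3 / 8 * (c * h + 1) + P / 8 := by positivity
  have hB1 : 0 ≤ (1 + B) * R * k := by positivity
  have h1 : (N - 1) / 2 * (3 / 8 * (c * h + 1) + P / 8) ≤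
      2 * k * ((1 + B) * (R * (1 + h + P))) := by
    have : N * ((N - 1) / 2 * (3 / 8 * (c * h + 1) + P / 8)) ≤
        N * (2 * k * ((1 + B) * (R * (1 + h + P)))) := by
      calc N * ((N - 1) / 2 * (3 / 8 * (c * h + 1) + P / 8)) =
            q * (3 / 8 * (c * h + 1) + P / 8) := by
            rw [hq]
            ring
        _ ≤ 2 * (N * k) * ((1 + B) * (R * (1 + h + P))) := hmain.trans hTR
        _ = _ := by ring
    exact le_of_mul_le_mul_left this hN0
  have h2 : 1 + h + P ≤ 8 * (1 + 1 / c) * (3 / 8 * (c * h + 1) + P / 8) := by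
    have h3 : 8 * (1 + 1 / c) * (3 / 8 * (c * h + 1) + P / 8) =
        3 * (c * h + 1 + h + 1 / c) + P + P / c := by
      field_simp
      ring
    rw [h3]
    have h4 : 0 ≤ 1 / c := by positivity
    have h5 : 0 ≤ c * h := by positivity
    have h6 : 0 ≤ P / c := by positivity
    linarith
  have h3 : 2 * k * ((1 + B) * (R * (1 + h + P))) ≤
      2 * ((1 + B) * R * k) * (8 * (1 + 1 / c) * (3 / 8 * (c * h + 1) + P / 8)) := by
    calc 2 * k * ((1 + B) * (R * (1 + h + P))) = 2 * ((1 + B) * R * k) * (1 + h + P) := by ring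
      _ ≤ _ := mul_le_mul_of_nonneg_left h2 (by positivity)
  have h4 : (N - 1) * (3 / 8 * (c * h + 1) + P / 8) ≤
      (32 * (1 + B) * (1 + 1 / c) * R * k) * (3 / 8 * (c * h + 1) + P / 8) := by
    have h5 : (N - 1) * (3 / 8 * (c * h + 1) + P / 8) =
        2 * ((N - 1) / 2 * (3 / 8 * (c * h + 1) + P / 8)) := by ring
    rw [h5]
    calc 2 * ((N - 1) / 2 * (3 / 8 * (c * h + 1) + P / 8)) ≤
          2 * (2 * ((1 + B) * R * k) * (8 * (1 + 1 / c) * (3 / 8 * (c * h + 1) + P / 8))) := by
          linarith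
      _ = _ := by ring
  have h5 := le_of_mul_le_mul_right h4 hch
  linarith

end Pool.Agent.TH450.NM
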