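import Pool.Agent.H951R3.PB.F7

/-!
# Frames of `K²` adapted to a norm, and cells of `K`-rational points
-/

set_option autoImplicit false

namespace Pool.Agent.TH450.NM

open Real Pool.Agent.H951R3.PB

section frame

variable {K : Type*} [Field K]

/-- `e, f` are nearly orthogonal -/
def NO (V : AbsoluteValue K ℝ) (N : (Fin 2 → K) → ℝ) (ρ : ℝ) (e f : Fin 2 → K) : Prop :=
  ∀ α β : K, V α * N e ≤ ρ * N (α • e + β • f) ∧ V β * N f ≤ ρ * N (α • e + β • f)

theorem NO.symm {V : AbsoluteValue K ℝ} {N : (Fin 2 → K) → ℝ} {ρ : ℝ} {e f : Fin 2 → K}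
    (h : NO V N ρ e f) : NO V N ρ f e := fun α β => by
  rw [add_comm]
  exact ⟨(h β α).2, (h β α).1⟩

theorem wd_swap' (x y : Fin 2 → K) : wd x y = -wd y x := by
  unfold wd
  ring

theorem exists_NO (V : AbsoluteValue K ℝ) (N : (Fin 2 → K) → ℝ)
    (hN : ∀ x, x ≠ 0 → 0 < N x) (hN0 : ∀ x, 0 ≤ N x) (hsm : ∀ (c : K) x, N (c • x) = V c * N x)
    (hadd : ∀ x y, N (x + y) ≤ max (N x) (N y)) {D : ℝ} (hD : 0 < D)
    (hl : ∀ x y, V (wd x y) ≤ N x * N y * D) {ρ : ℝ} (hρ : 1 < ρ) :
    ∃ e f : Fin 2 → K, wd e f ≠ 0 ∧ NO V N ρ e f := by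
  set e : Fin 2 → K := ![1, 0] with he
  set f0 : Fin 2 → K := ![0, 1] with hf0
  have he0 : e ≠ 0 := by
    intro h
    have := congrFun h 0
    simp [he] at this
  have hNe := hN e he0
  have hwd : ∀ x : K, wd e (f0 + x • e) = 1 := by
    intro x
    simp [wd, he, hf0]
  let S : Set ℝ := Set.range fun x : K => N (f0 + x • e)
  have hS0 : S.Nonempty := Set.range_nonempty _
  have hSb : ∀ s ∈ S, (N e * D)⁻¹ ≤ s := by
    rintro s ⟨x, rfl⟩
    have h1 := hl e (f0 + x • e)
    rw [hwd, map_one] at h1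
    have h2 : 0 < N e * D := by positivity
    show (N e * D)⁻¹ ≤ N (f0 + x • e)
    rw [inv_le_iff_one_le_mul₀ h2]
    linarith
  have hinf : (N e * D)⁻¹ ≤ sInf S := le_csInf hS0 hSb
  have hpos : 0 < sInf S := (inv_pos.2 (by positivity)).trans_le hinf
  obtain ⟨s, ⟨x1, rfl⟩, hlt⟩ := exists_lt_of_csInf_lt hS0
    (show sInf S < ρ * sInf S by nlinarith)
  set f : Fin 2 → K := f0 + x1 • e with hf
  have hmin : ∀ x : K, N f ≤ ρ * N (f + x • e) := by
    intro x
    have h1 : sInf S ≤ N (f + x • e) := by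
      refine csInf_le ⟨_, hSb⟩ ⟨x1 + x, ?_⟩
      show N (f0 + (x1 + x) • e) = _
      rw [hf, add_smul, add_assoc]
    have h2 : N f ≤ ρ * sInf S := hlt.le
    refine h2.trans (mul_le_mul_of_nonneg_left h1 (by linarith))
  refine ⟨e, f, by rw [hf, hwd]; exact one_ne_zero, fun α β => ?_⟩
  have key : V β * N f ≤ ρ * N (α • e + β • f) := by
    by_cases hβ : β = 0
    · rw [hβ, map_zero, zero_mul]
      exact mul_nonneg (by linarith) (hN0 _)
    · have h1 := hmin (α / β)
      have h2 : α • e + β • f = β • (f + (α / β) • e) := by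
        have h3 : β • (f + (α / β) • e) = β • f + (β * (α / β)) • e := by
          rw [smul_add, smul_smul]
        rw [h3, mul_div_cancel₀ _ hβ, add_comm]
      rw [h2, hsm]
      have h3 : 0 ≤ V β := V.nonneg _
      calc V β * N f ≤ V β * (ρ * N (f + (α / β) • e)) := mul_le_mul_of_nonneg_left h1 h3
        _ = _ := by ring
  refine ⟨?_, key⟩
  have h1 : α • e = (α • e + β • f) + (-β) • f := by
    rw [neg_smul, add_neg_cancel_right]
  have h2 := hadd (α • e + β • f) ((-β) • f)
  rw [← h1, hsm, hsm, AbsoluteValue.map_neg] at h2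
  refine h2.trans (max_le ?_ key)
  have h3 := hN0 (α • e + β • f)
  nlinarith

theorem scale_NO (V : AbsoluteValue K ℝ) {q : ℝ} (hq : 1 < q) {ϖ : K} (hϖ : V ϖ = q⁻¹)
    (N : (Fin 2 → K) → ℝ) (hN : ∀ x, x ≠ 0 → 0 < N x) (hsm : ∀ (c : K) x, N (c • x) = V c * N x)
    {ρ : ℝ} {e f : Fin 2 → K} (hef : wd e f ≠ 0) (h : NO V N ρ e f) :
    ∃ e f : Fin 2 → K, wd e f ≠ 0 ∧ NO V N ρ e f ∧ 0 < N e ∧ N e ≤ N f ∧
      2 * log (N f) ≤ 2 * log (N e) + log q := by
  have hne : e ≠ 0 ∧ f ≠ 0 := by
    constructor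
    · rintro rfl; apply hef; simp [wd]
    · rintro rfl; apply hef; simp [wd]
  have hNe := hN e hne.1
  have hNf := hN f hne.2
  have hlq : 0 < log q := log_pos hq
  have hϖ0 : ϖ ≠ 0 := by
    rintro rfl
    rw [map_zero] at hϖ
    have : 0 < q⁻¹ := by positivity
    linarith
  set m : ℤ := round ((log (N f) - log (N e)) / log q) with hm
  set f' : Fin 2 → K := ϖ ^ m • f with hf'
  have hϖm : ϖ ^ m ≠ 0 := zpow_ne_zero _ hϖ0
  have hVm : log (V (ϖ ^ m)) = -(m * log q) := by
    rw [map_zpow₀, hϖ, log_zpow, log_inv]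
    ring
  have hNf' : N f' = V (ϖ ^ m) * N f := hsm _ _
  have hVpos : 0 < V (ϖ ^ m) := V.pos hϖm
  have hNf'0 : 0 < N f' := by rw [hNf']; positivity
  have hlog : log (N f') = log (N f) - m * log q := by
    rw [hNf', log_mul hVpos.ne' hNf.ne', hVm]
    ring
  have hround : |(log (N f) - log (N e)) / log q - m| ≤ 1 / 2 := abs_sub_round _
  have habs : |log (N f') - log (N e)| ≤ log q / 2 := by
    have h1 : log (N f') - log (N e) = ((log (N f) - log (N e)) / log q - m) * log q := by
      rw [hlog]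
      field_simp
      ring
    rw [h1, abs_mul, abs_of_pos hlq]
    nlinarith
  have hef' : wd e f' ≠ 0 := by
    have : wd e f' = ϖ ^ m * wd e f := by
      simp only [wd, hf', Pi.smul_apply, smul_eq_mul]
      ring
    rw [this]
    exact mul_ne_zero hϖm hef
  have hNO : NO V N ρ e f' := by
    intro α β
    have h1 := h α (β * ϖ ^ m)
    have h2 : α • e + β • f' = α • e + (β * ϖ ^ m) • f := by
      rw [hf', smul_smul]
    rw [h2]
    refine ⟨h1.1, ?_⟩
    have h3 := h1.2
    rw [map_mul] at h3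
    rw [hNf']
    linarith
  rw [abs_le] at habs
  rcases le_total (N e) (N f') with h1 | h1
  · exact ⟨e, f', hef', hNO, hNe, h1, by linarith⟩
  · refine ⟨f', e, ?_, hNO.symm, hNf'0, h1, by linarith⟩
    rw [wd_swap']
    exact neg_ne_zero.2 hef'

theorem frame (V : AbsoluteValue K ℝ) (hna : IsNonarchimedean V) {q : ℝ} (hq : 1 < q)
    (hϖ : ∃ ϖ : K, V ϖ = q⁻¹) (hdisc : ∀ x y : K, V x < V y → V x * q ≤ V y)
    (N : (Fin 2 → K) → ℝ)
    (hN : ∀ x, x ≠ 0 → 0 < N x) (hN0 : ∀ x, 0 ≤ N x) (hsm : ∀ (c : K) x, N (c • x) = V c * N x)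
    (hadd : ∀ x y, N (x + y) ≤ max (N x) (N y)) {D : ℝ} (hD : 0 < D)
    (hl : ∀ x y, V (wd x y) ≤ N x * N y * D) {ε : ℝ} (hε : 0 < ε) :
    ∃ e f : Fin 2 → K, wd e f ≠ 0 ∧ 0 < N e ∧ N e ≤ N f ∧ ∃ cell : (Fin 2 → K) → Fin 2,
      ∀ x y, wd x y ≠ 0 → cell x = cell y →
        2 * log (N f) - log (V (wd e f)) - ε ≤ log (N x) + log (N y) - log (V (wd x y)) := by
  classical
  obtain ⟨ϖ, hϖ⟩ := hϖ
  set ρ : ℝ := exp (ε / 2) with hρ
  have hρ1 : 1 < ρ := by
    rw [hρ]
    exact one_lt_exp_iff.2 (by linarith)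
  have hlρ : log ρ = ε / 2 := log_exp _
  obtain ⟨e0, f0, hef0, hNO0⟩ := exists_NO V N hN hN0 hsm hadd hD hl hρ1
  obtain ⟨e, f, hef, hNO, hNe, hle, hsq⟩ := scale_NO V hq hϖ N hN hsm hef0 hNO0
  have hNf : 0 < N f := hNe.trans_le hle
  refine ⟨e, f, hef, hNe, hle, fun x => if V (wd e x) < V (wd x f) then 0 else 1, ?_⟩
  intro x y hxy hcell
  have hx : x ≠ 0 := by rintro rfl; apply hxy; simp [wd]
  have hy : y ≠ 0 := by rintro rfl; apply hxy; simp [wd]
  have hNx := hN x hx
  have hNy := hN y hy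
  have hW : 0 < V (wd e f) := V.pos hef
  have hVxy : 0 < V (wd x y) := V.pos hxy
  have hcr : ∀ z : Fin 2 → K, z = (wd z f / wd e f) • e + (wd e z / wd e f) • f := by
    intro z
    have h1 := F7.cramer_vec z e f
    have h2 : z = (wd e f)⁻¹ • (wd e f • z) := by
      rw [smul_smul, inv_mul_cancel₀ hef, one_smul]
    rw [h1, smul_add, smul_smul, smul_smul] at h2
    calc z = ((wd e f)⁻¹ * wd z f) • e + ((wd e f)⁻¹ * wd e z) • f := h2
      _ = _ := by rw [div_eq_inv_mul, div_eq_inv_mul]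
  have hno : ∀ z : Fin 2 → K, V (wd z f) * N e ≤ ρ * N z * V (wd e f) ∧
      V (wd e z) * N f ≤ ρ * N z * V (wd e f) := by
    intro z
    have h1 := hNO (wd z f / wd e f) (wd e z / wd e f)
    rw [← hcr z, map_div₀, map_div₀, div_mul_eq_mul_div, div_mul_eq_mul_div,
      div_le_iff₀ hW, div_le_iff₀ hW] at h1
    exact h1
  have hwd : wd x y * wd e f = wd x f * wd e y - wd e x * wd y f := F7.wd_cramer x y e f
  have hmax : V (wd x y) * V (wd e f) ≤
      max (V (wd x f) * V (wd e y)) (V (wd e x) * V (wd y f)) := by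
    rw [← map_mul, hwd, sub_eq_add_neg]
    refine (hna _ _).trans ?_
    rw [AbsoluteValue.map_neg, map_mul, map_mul]
  have hzero : ∀ z : Fin 2 → K, z ≠ 0 → ¬ (wd z f = 0 ∧ wd e z = 0) := by
    rintro z hz ⟨h1, h2⟩
    apply hz
    rw [hcr z, h1, h2]
    simp
  by_cases tx : V (wd e x) < V (wd x f)
  · by_cases ty : V (wd e y) < V (wd y f)
    · have dx := hdisc _ _ tx
      have dy := hdisc _ _ ty
      have hax : 0 < V (wd x f) := (V.nonneg _).trans_lt tx
      have hay : 0 < V (wd y f) := (V.nonneg _).trans_lt ty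
      have h1 : V (wd x y) * V (wd e f) * q ≤ V (wd x f) * V (wd y f) := by
        have h2 : max (V (wd x f) * V (wd e y)) (V (wd e x) * V (wd y f)) * q ≤
            V (wd x f) * V (wd y f) := by
          rw [max_mul_of_nonneg _ _ (by linarith)]
          refine max_le ?_ ?_
          · calc V (wd x f) * V (wd e y) * q = V (wd x f) * (V (wd e y) * q) := by ring
              _ ≤ _ := mul_le_mul_of_nonneg_left dy hax.le
          · calc V (wd e x) * V (wd y f) * q = (V (wd e x) * q) * V (wd y f) := by ring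
              _ ≤ _ := mul_le_mul_of_nonneg_right dx hay.le
        refine le_trans (mul_le_mul_of_nonneg_right hmax (by linarith)) h2
      have l1 := log_le_log (by positivity) h1
      rw [log_mul (by positivity) (by positivity), log_mul hVxy.ne' hW.ne',
        log_mul hax.ne' hay.ne'] at l1
      have l2 := log_le_log (by positivity) (hno x).1
      have l3 := log_le_log (by positivity) (hno y).1
      rw [log_mul hax.ne' hNe.ne', log_mul (by positivity) hW.ne',
        log_mul (by positivity) hNx.ne', hlρ] at l2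
      rw [log_mul hay.ne' hNe.ne', log_mul (by positivity) hW.ne',
        log_mul (by positivity) hNy.ne', hlρ] at l3
      linarith
    · simp only [if_pos tx, if_neg ty] at hcell
      exact absurd hcell (by decide)
  · by_cases ty : V (wd e y) < V (wd y f)
    · simp only [if_neg tx, if_pos ty] at hcell
      exact absurd hcell (by decide)
    · push Not at tx ty
      have hbx : 0 < V (wd e x) := by
        apply V.pos
        intro h0
        rw [h0, map_zero] at tx
        exact hzero x hx ⟨(AbsoluteValue.eq_zero V).1 (le_antisymm tx (V.nonneg _)), h0⟩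
      have hby : 0 < V (wd e y) := by
        apply V.pos
        intro h0
        rw [h0, map_zero] at ty
        exact hzero y hy ⟨(AbsoluteValue.eq_zero V).1 (le_antisymm ty (V.nonneg _)), h0⟩
      have h1 : V (wd x y) * V (wd e f) ≤ V (wd e x) * V (wd e y) := by
        refine hmax.trans (max_le ?_ ?_)
        · exact mul_le_mul_of_nonneg_right tx hby.le
        · exact mul_le_mul_of_nonneg_left ty hbx.le
      have l1 := log_le_log (by positivity) h1
      rw [log_mul hVxy.ne' hW.ne', log_mul hbx.ne' hby.ne'] at l1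
      have l2 := log_le_log (by positivity) (hno x).2
      have l3 := log_le_log (by positivity) (hno y).2
      rw [log_mul hbx.ne' hNf.ne', log_mul (by positivity) hW.ne',
        log_mul (by positivity) hNx.ne', hlρ] at l2
      rw [log_mul hby.ne' hNf.ne', log_mul (by positivity) hW.ne',
        log_mul (by positivity) hNy.ne', hlρ] at l3
      linarith

end frame

end Pool.Agent.TH450.NM
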