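import Pool.Agent.TH450.NM.B
import Pool.Agent.H951R3.PB.F2
import Pool.Agent.H951R3.PB.F6
import Pool.Agent.H951R3.PB.D5

/-!
# Frames of `K²` adapted to good coordinates over the algebraic closure
-/

set_option autoImplicit false

namespace Pool.Agent.TH450.NM

open Real Pool.Agent.H951R3.PB NumberField Pool.Agent.H951R2.MS

universe u

theorem fp_disc {K : Type u} [Field K] [NumberField K] (v : FinitePlace K) (x y : K)
    (h : v x < v y) : v x * Ideal.absNorm v.maximalIdeal.asIdeal ≤ v y := by
  have hq : (1 : ℝ) < Ideal.absNorm v.maximalIdeal.asIdeal := by exact_mod_cast fp_one_lt v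
  have hy : 0 < v y := lt_of_le_of_lt (apply_nonneg v x) h
  have h1 : v (x / y) < 1 := by
    rw [map_div₀, div_lt_one hy]
    exact h
  have h2 := fp_le_inv v h1
  rw [map_div₀, div_le_iff₀ hy, inv_mul_eq_div, le_div_iff₀ (by linarith)] at h2
  exact h2

theorem fp_unif {K : Type u} [Field K] [NumberField K] (v : FinitePlace K) :
    ∃ ϖ : K, v ϖ = (Ideal.absNorm v.maximalIdeal.asIdeal : ℝ)⁻¹ := by
  obtain ⟨ϖ, h⟩ := v.maximalIdeal.valuation_exists_uniformizer K
  have h0 : ϖ ≠ 0 := by
    rintro rfl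
    rw [map_zero] at h
    exact absurd h.symm (by simp)
  refine ⟨ϖ, ?_⟩
  have hne : (WithZero.exp (-1 : ℤ)) ≠ 0 := by simp
  have h5 : WithZero.unzero hne = Multiplicative.ofAdd (-1 : ℤ) := by
    apply WithZero.coe_injective
    rw [WithZero.coe_unzero]
    rfl
  rw [fp_val, h, WithZeroMulInt.toNNReal_neg_apply _ hne, h5, toAdd_ofAdd]
  simp

/-- the size in a frame contained in the ball of radius `n` -/
theorem tt_frame {L : Type u} [Field L] [IsAlgClosed L] [CharZero L] {w : AbsoluteValue L ℝ}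
    (hw : IsNonarchimedean w) {F : (Fin 2 → L) → Fin 2 → L} {d : ℕ} {r : ℝ} (h : Fib w F d r)
    {e f : Fin 2 → L} (hef : wd e f ≠ 0) {n : ℝ} (he : nrm w e ≤ n)
    (hf : nrm w f ≤ n) :
    tt w (cj e f F) d (cr w d r e f) ≤
      tt w F d r + ((d : ℝ) ^ 2 + d) * (2 * log n - log (w (wd e f))) := by
  have hW : 0 < w (wd e f) := w.pos hef
  obtain ⟨he0, hf0⟩ := D2.wd_swap0 e f hef
  have hn : 0 < n := (B1_nrm_pos w he0).trans_le he
  have key : Ssup w (cj e f F) ≤ Ssup w F + ((d : ℝ) + 1) * log n - log (w (wd e f)) := by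
    have hne : Nonempty {x : Fin 2 → L // nrm w x = 1} := ⟨⟨![1, 0], by simp [nrm]⟩⟩
    refine ciSup_le ?_
    rintro ⟨x, hx⟩
    have hx0 := B1_ne_zero hx
    have hw0 : w (x 0) ≤ 1 := by rw [← hx]; exact le_max_left _ _
    have hw1 : w (x 1) ≤ 1 := by rw [← hx]; exact le_max_right _ _
    have hy0 : emb e f x ≠ 0 := D2.emb_ne hef hx0
    have hyn : nrm w (emb e f x) ≤ n := by
      have h1 : ∀ i, w (emb e f x i) ≤ n := by
        intro i
        simp only [emb, Pi.add_apply, Pi.smul_apply, smul_eq_mul]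
        refine (hw _ _).trans (max_le ?_ ?_)
        · rw [map_mul]
          have h2 : w (e i) ≤ n := by
            refine le_trans ?_ he
            fin_cases i
            · exact le_max_left _ _
            · exact le_max_right _ _
          calc w (x 0) * w (e i) ≤ 1 * n := mul_le_mul hw0 h2 (w.nonneg _) zero_le_one
            _ = n := one_mul n
        · rw [map_mul]
          have h2 : w (f i) ≤ n := by
            refine le_trans ?_ hf
            fin_cases i
            · exact le_max_left _ _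
            · exact le_max_right _ _
          calc w (x 1) * w (f i) ≤ 1 * n := mul_le_mul hw1 h2 (w.nonneg _) zero_le_one
            _ = n := one_mul n
      exact max_le (h1 0) (h1 1)
    obtain ⟨k, u, hk, hu, hku⟩ := D2.unit_of w hy0
    have hwk : 0 < w k := w.pos hk
    have hkn : w k ≤ n := by
      rw [hku, B1_nrm_smul, hu, mul_one] at hyn
      exact hyn
    have hFu : F u ≠ 0 := fib_ne_zero h (B1_ne_zero hu)
    have hFy : log (nrm w (F (emb e f x))) ≤ d * log n + Ssup w F := by
      rw [hku, fib_homog h, B1_nrm_smul, map_pow, log_mul (pow_pos hwk d).ne'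
        (B1_nrm_pos w hFu).ne', log_pow]
      have h1 := B2_le h hu
      have h2 : (d : ℝ) * log (w k) ≤ d * log n :=
        mul_le_mul_of_nonneg_left (log_le_log hwk hkn) (Nat.cast_nonneg d)
      linarith
    set z := F (emb e f x) with hz
    have hz0 : z ≠ 0 := fib_ne_zero h hy0
    have hzp := B1_nrm_pos w hz0
    have hcoo : nrm w (coo e f z) ≤ nrm w z * n / w (wd e f) := by
      have h1 : w (wd z f) ≤ nrm w z * n :=
        (F2.wd_le w hw z f).trans (mul_le_mul_of_nonneg_left hf hzp.le)
      have h2 : w (wd e z) ≤ nrm w z * n := by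
        refine (F2.wd_le w hw e z).trans ?_
        rw [mul_comm]
        exact mul_le_mul_of_nonneg_left he hzp.le
      refine max_le ?_ ?_
      · show w (wd z f / wd e f) ≤ _
        rw [map_div₀]
        exact div_le_div_of_nonneg_right h1 hW.le
      · show w (wd e z / wd e f) ≤ _
        rw [map_div₀]
        exact div_le_div_of_nonneg_right h2 hW.le
    have hc0 : coo e f z ≠ 0 := D2.coo_ne hef hz0
    show log (nrm w (coo e f z)) ≤ _
    have h3 := log_le_log (B1_nrm_pos w hc0) hcoo
    rw [log_div (by positivity) hW.ne', log_mul hzp.ne' hn.ne'] at h3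
    linarith
  unfold tt cr
  have hd0 : (0 : ℝ) ≤ 2 * d := by positivity
  have h1 := mul_le_mul_of_nonneg_left key hd0
  linarith

theorem rat_frame {K : Type u} [Field K] [NumberField K] (v : FinitePlace K)
    (w : AbsoluteValue (AlgebraicClosure K) ℝ) (hext : Ext v.val w) (hw : IsNonarchimedean w)
    {a b : Fin 2 → AlgebraicClosure K} (hab : wd a b ≠ 0) {ε : ℝ} (hε : 0 < ε) :
    ∃ (e f : Fin 2 → K) (δ : ℝ), wd e f ≠ 0 ∧
      (∃ cell : (Fin 2 → K) → Fin 2, ∀ x y, wd x y ≠ 0 → cell x = cell y →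
        δ - ε ≤ lam w (coo a b (vL K x)) (coo a b (vL K y))) ∧
      ∀ (F : (Fin 2 → AlgebraicClosure K) → Fin 2 → AlgebraicClosure K) (d : ℕ) (r : ℝ),
        Fib w F d r → tt w (cj (vL K e) (vL K f) F) d (cr w d r (vL K e) (vL K f)) ≤
          tt w (cj a b F) d (cr w d r a b) + ((d : ℝ) ^ 2 + d) * δ := by
  have hinj : Function.Injective (algebraMap K (AlgebraicClosure K)) :=
    (algebraMap K (AlgebraicClosure K)).injective
  have hvL : ∀ x : Fin 2 → K, x ≠ 0 → vL K x ≠ 0 := by
    intro x hx h0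
    apply hx
    ext i
    apply hinj
    rw [Pi.zero_apply, map_zero]
    exact congrFun h0 i
  have hD : 0 < w (wd a b) := w.pos hab
  set N : (Fin 2 → K) → ℝ := fun x => nrm w (coo a b (vL K x)) with hNdef
  have hNpos : ∀ x : Fin 2 → K, x ≠ 0 → 0 < N x := fun x hx =>
    F7.nrm_pos w (F7.coo_ne_zero hab (hvL x hx))
  have hN0 : ∀ x : Fin 2 → K, 0 ≤ N x := fun x => (w.nonneg _).trans (le_max_left _ _)
  have hsm : ∀ (c : K) x, N (c • x) = v.val c * N x := by
    intro c x
    have h1 : vL K (c • x) = algebraMap K (AlgebraicClosure K) c • vL K x := by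
      funext i
      simp [vL]
    show nrm w (coo a b (vL K (c • x))) = _
    rw [h1, D2.coo_smul, B1_nrm_smul, hext]
  have hadd : ∀ x y, N (x + y) ≤ max (N x) (N y) := by
    intro x y
    have h1 : vL K (x + y) = vL K x + vL K y := by
      funext i
      simp [vL]
    have h2 : coo a b (vL K x + vL K y) = coo a b (vL K x) + coo a b (vL K y) := by
      funext i
      fin_cases i
      · simp only [coo, wd, Pi.add_apply, Matrix.cons_val_zero, Fin.zero_eta]
        ring
      · simp only [coo, wd, Pi.add_apply, Fin.mk_one, Matrix.cons_val_one,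
          Matrix.cons_val_fin_one]
        ring
    show nrm w (coo a b (vL K (x + y))) ≤ _
    rw [h1, h2]
    refine max_le ?_ ?_
    · exact (hw _ _).trans (max_le_max (le_max_left _ _) (le_max_left _ _))
    · exact (hw _ _).trans (max_le_max (le_max_right _ _) (le_max_right _ _))
  have hcoo : ∀ x y : Fin 2 → K, w (wd (coo a b (vL K x)) (coo a b (vL K y))) =
      v.val (wd x y) / w (wd a b) := by
    intro x y
    rw [F7.wd_coo _ _ _ _ hab, map_div₀, F7.wd_vL, hext]
  have hl : ∀ x y, v.val (wd x y) ≤ N x * N y * w (wd a b) := by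
    intro x y
    have h1 := F7.wd_le w hw (coo a b (vL K x)) (coo a b (vL K y))
    rw [hcoo, div_le_iff₀ hD] at h1
    exact h1
  have hq : (1 : ℝ) < Ideal.absNorm v.maximalIdeal.asIdeal := by exact_mod_cast fp_one_lt v
  obtain ⟨e, f, hef, hNe, hle, cell, hcell⟩ := frame v.val (fp_isNonarch v) hq (fp_unif v)
    (fp_disc v) N hNpos hN0 hsm hadd hD hl hε
  have hVef : 0 < v.val (wd e f) := v.val.pos hef
  have hNf : 0 < N f := hNe.trans_le hle
  refine ⟨e, f, 2 * log (N f) - log (v.val (wd e f)) + log (w (wd a b)), hef,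
    ⟨cell, fun x y hxy hc => ?_⟩, fun F d r hF => ?_⟩
  · have h1 := hcell x y hxy hc
    have hV : 0 < v.val (wd x y) := v.val.pos hxy
    rw [lam, hcoo, log_div hV.ne' hD.ne']
    linarith
  · have hF' := fib_cj hF hab
    have hef' : wd (coo a b (vL K e)) (coo a b (vL K f)) ≠ 0 := by
      rw [F7.wd_coo _ _ _ _ hab, F7.wd_vL]
      exact div_ne_zero ((map_ne_zero_iff _ hinj).2 hef) hab
    have h1 := tt_frame hw hF' hef' (n := N f) hle le_rfl
    rw [D5aux.cj_cj hab, D5aux.cr_cr w d r hab hef', D5aux.emb_coo hab, D5aux.emb_coo hab,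
      hcoo, log_div hVef.ne' hD.ne'] at h1
    refine h1.trans (le_of_eq ?_)
    ring

end Pool.Agent.TH450.NM
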