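import Pool.Agent.TH450.NM.B2
import Pool.Agent.H951R3.PB.E1
import Pool.Agent.H951R3.PB.E2
import Pool.Agent.H951R3.PB.G1
import Pool.Agent.H951R3.PB.G3
import Pool.Agent.H951R3.PB.F9

/-!
# The minimal resultant
-/

set_option autoImplicit false

namespace Pool.Agent.TH450.NM

open Real Pool.Agent.H951R3.PB NumberField Pool.Agent.H951R2.MS

universe u

section defs

variable {K : Type u} [Field K]

/-- `g` is a nonzero multiple of a conjugate of `f` by a linear change of coordinates over `K`:
the two pairs of forms define conjugate self-maps of the projective line over `K`. -/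
def ConjTo (f g : Fin 2 → MvPolynomial (Fin 2) K) : Prop :=
  ∃ (A : Matrix (Fin 2) (Fin 2) K) (c : K), A.det ≠ 0 ∧ c ≠ 0 ∧
    ∀ x : Fin 2 → K, A.mulVec (ev g x) = c • ev f (A.mulVec x)

/-- The local part at `v` of the logarithm of the norm of the minimal resultant of `f`: the infimum
of `- log |Res g|` over the pairs `g` of `v`-integral forms of degree `d` that are multiples of
conjugates of `f` over `K`. -/
noncomputable def minres (v : AbsoluteValue K ℝ) (d : ℕ) (f : Fin 2 → MvPolynomial (Fin 2) K) :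
    ℝ :=
  sInf {t : ℝ | ∃ g : Fin 2 → MvPolynomial (Fin 2) K, (∀ i, (g i).IsHomogeneous d) ∧
    (∀ i m, v ((g i).coeff m) ≤ 1) ∧ ConjTo f g ∧ t = -log (v (rs g d))}

end defs

open MvPolynomial in
/-- conjugate polynomials, compatibly with maps of fields -/
theorem poly_cj' {K : Type u} [Field K] {d : ℕ} {f : Fin 2 → MvPolynomial (Fin 2) K}
    (hf : ∀ i, (f i).IsHomogeneous d) (a b : Fin 2 → K) :
    ∃ g : Fin 2 → MvPolynomial (Fin 2) K, (∀ i, (g i).IsHomogeneous d) ∧
      ∀ (L : Type u) [Field L] (τ : K →+* L), ev (fun i => (g i).map τ) =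
        cj (fun i => τ (a i)) (fun i => τ (b i)) (ev (fun i => (f i).map τ)) := by
  classical
  set l : Fin 2 → MvPolynomial (Fin 2) K := fun j => X 0 * C (a j) + X 1 * C (b j) with hl
  set F : Fin 2 → MvPolynomial (Fin 2) K := fun i => aeval l (f i) with hF
  have hlhom : ∀ j, (l j).IsHomogeneous 1 := by
    intro j
    refine IsHomogeneous.add ?_ ?_
    · simpa using (isHomogeneous_X K (0 : Fin 2)).mul (isHomogeneous_C (Fin 2) (a j))
    · simpa using (isHomogeneous_X K (1 : Fin 2)).mul (isHomogeneous_C (Fin 2) (b j))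
  have hFhom : ∀ i, (F i).IsHomogeneous d := by
    intro i
    have := (hf i).aeval l hlhom
    rw [one_mul] at this
    exact this
  set g : Fin 2 → MvPolynomial (Fin 2) K :=
    ![C ((wd a b)⁻¹) * (F 0 * C (b 1) - F 1 * C (b 0)),
      C ((wd a b)⁻¹) * (C (a 0) * F 1 - C (a 1) * F 0)] with hg
  have hghom : ∀ i, (g i).IsHomogeneous d := by
    intro i
    have hs : ∀ (c : K) (p q : MvPolynomial (Fin 2) K), p.IsHomogeneous d → q.IsHomogeneous d →
        (C c * (p - q)).IsHomogeneous d := by
      intro c p q hp hq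
      have := (isHomogeneous_C (Fin 2) c).mul (hp.sub hq)
      simpa using this
    fin_cases i
    · refine hs _ _ _ ?_ ?_
      · simpa using (hFhom 0).mul (isHomogeneous_C (Fin 2) (b 1))
      · simpa using (hFhom 1).mul (isHomogeneous_C (Fin 2) (b 0))
    · refine hs _ _ _ ?_ ?_
      · simpa using (isHomogeneous_C (Fin 2) (a 0)).mul (hFhom 1)
      · simpa using (isHomogeneous_C (Fin 2) (a 1)).mul (hFhom 0)
  refine ⟨g, hghom, fun L _ τ => ?_⟩
  have hFev : ∀ i (x : Fin 2 → L), eval x ((F i).map τ) =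
      ev (fun i => (f i).map τ) (emb (fun i => τ (a i)) (fun i => τ (b i)) x) i := by
    intro i x
    have h1 : eval x ((aeval l (f i)).map τ) = eval (fun j => eval x ((l j).map τ))
        ((f i).map τ) := by
      rw [eval_map, ← coe_eval₂Hom, map_aeval]
      rw [eval_map, coe_eval₂Hom]
      congr 1
      · ext y
        simp
      · funext j
        rw [coe_eval₂Hom, eval_map]
    have h2 : (fun j => eval x ((l j).map τ)) = emb (fun i => τ (a i)) (fun i => τ (b i)) x := by
      funext j
      simp [hl, emb]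
    rw [hF]
    simp only
    rw [h1, h2]
    rfl
  have hwd : wd (fun i => τ (a i)) (fun i => τ (b i)) = τ (wd a b) := by
    simp [wd]
  funext x i
  fin_cases i
  · simp [ev, hg, cj, coo, wd, hFev, div_eq_inv_mul]
  · simp [ev, hg, cj, coo, wd, hFev, div_eq_inv_mul]

/-- the coefficients of the dehomogenisation of an integral form are integral -/
theorem dh_coeff_le {K : Type u} [Field K] (v : AbsoluteValue K ℝ) (hv : IsNonarchimedean v)
    {p : MvPolynomial (Fin 2) K} (hp : ∀ m, v (p.coeff m) ≤ 1) (k : ℕ) :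
    v ((dh p).coeff k) ≤ 1 := by
  rw [dh, p.as_sum, map_sum, Polynomial.finsetSum_coeff]
  refine F2.sum_le v hv _ _ fun m _ => ?_
  rw [MvPolynomial.aeval_monomial, Finsupp.prod_fintype _ _ (by simp)]
  simp only [Fin.prod_univ_two, Matrix.cons_val_zero, Matrix.cons_val_one, one_pow, mul_one]
  rw [Polynomial.algebraMap_eq, Polynomial.coeff_C_mul_X_pow]
  split_ifs
  · exact hp m
  · rw [map_zero]
    exact zero_le_one

theorem det_le_one {K : Type u} [Field K] (v : AbsoluteValue K ℝ) (hv : IsNonarchimedean v)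
    {n : ℕ} (M : Matrix (Fin n) (Fin n) K) (h : ∀ i j, v (M i j) ≤ 1) : v M.det ≤ 1 := by
  rw [Matrix.det_apply']
  refine F2.sum_le v hv _ _ fun σ _ => ?_
  rw [map_mul, map_prod]
  have h1 : v (((Equiv.Perm.sign σ : ℤ) : K)) = 1 := by
    rcases Int.units_eq_one_or (Equiv.Perm.sign σ) with hs | hs
    · rw [hs]; simp
    · rw [hs]; simp [AbsoluteValue.map_neg]
  rw [h1, one_mul]
  exact Finset.prod_le_one (fun i _ => v.nonneg _) fun i _ => h _ _

theorem rs_le_one {K : Type u} [Field K] (v : AbsoluteValue K ℝ) (hv : IsNonarchimedean v)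
    {g : Fin 2 → MvPolynomial (Fin 2) K} (hg : ∀ i m, v ((g i).coeff m) ≤ 1) (d : ℕ) :
    v (rs g d) ≤ 1 := by
  unfold rs Polynomial.resultant
  refine det_le_one v hv _ fun i j => ?_
  unfold Polynomial.sylvester
  rw [Matrix.of_apply]
  refine Fin.addCases (fun j₁ => ?_) (fun j₁ => ?_) j
  · rw [Fin.addCases_left]
    split_ifs
    · exact dh_coeff_le v hv (hg 1) _
    · rw [map_zero]; exact zero_le_one
  · rw [Fin.addCases_right]
    split_ifs
    · exact dh_coeff_le v hv (hg 0) _
    · rw [map_zero]; exact zero_le_one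

theorem minres_set_nonneg {K : Type u} [Field K] (v : AbsoluteValue K ℝ)
    (hv : IsNonarchimedean v) (d : ℕ) (f : Fin 2 → MvPolynomial (Fin 2) K) :
    ∀ t ∈ {t : ℝ | ∃ g : Fin 2 → MvPolynomial (Fin 2) K, (∀ i, (g i).IsHomogeneous d) ∧
      (∀ i m, v ((g i).coeff m) ≤ 1) ∧ ConjTo f g ∧ t = -log (v (rs g d))}, 0 ≤ t := by
  rintro t ⟨g, -, hg, -, rfl⟩
  have := log_nonpos (v.nonneg _) (rs_le_one v hv hg d)
  linarith

theorem minres_nonneg {K : Type u} [Field K] (v : AbsoluteValue K ℝ)
    (hv : IsNonarchimedean v) (d : ℕ) (f : Fin 2 → MvPolynomial (Fin 2) K) :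
    0 ≤ minres v d f := Real.sInf_nonneg (minres_set_nonneg v hv d f)

/-- the minimal resultant is at most the size in every `K`-rational frame -/
theorem minres_le {K : Type u} [Field K] [NumberField K] {d : ℕ} (hd : 1 ≤ d)
    {f : Fin 2 → MvPolynomial (Fin 2) K} (hf : ∀ i, (f i).IsHomogeneous d) (h0 : rs f d ≠ 0)
    (v : FinitePlace K) (w : AbsoluteValue (AlgebraicClosure K) ℝ) (hext : Ext v.val w)
    (hw : IsNonarchimedean w) {a b : Fin 2 → K} (hab : wd a b ≠ 0) :
    minres v.val d f ≤ tt w (cj (vL K a) (vL K b) (ev (fL K f))) d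
      (cr w d (log (w (rs (fL K f) d))) (vL K a) (vL K b)) := by
  classical
  have hinj : Function.Injective (algebraMap K (AlgebraicClosure K)) :=
    (algebraMap K (AlgebraicClosure K)).injective
  obtain ⟨g, hg, hgτ⟩ := poly_cj' hf a b
  have hgL : ev (fL K g) = cj (vL K a) (vL K b) (ev (fL K f)) :=
    hgτ (AlgebraicClosure K) (algebraMap K (AlgebraicClosure K))
  have hgK : ev g = cj a b (ev f) := by
    have h1 := hgτ K (RingHom.id K)
    have h2 : ∀ h : Fin 2 → MvPolynomial (Fin 2) K,
        (fun i => MvPolynomial.map (RingHom.id K) (h i)) = h := by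
      intro h
      funext i
      exact MvPolynomial.map_id _
    rw [h2, h2] at h1
    exact h1
  have hrs : rs (fL K f) d = algebraMap K (AlgebraicClosure K) (rs f d) := rs_map _ f d
  have hrs0 : rs (fL K f) d ≠ 0 := by
    rw [hrs]
    exact (map_ne_zero_iff _ hinj).2 h0
  have hfL : ∀ i, (fL K f i).IsHomogeneous d := fun i => (hf i).map _
  have hgLh : ∀ i, (fL K g i).IsHomogeneous d := fun i => (hg i).map _
  have hfib := fib_base w hd hfL hrs0
  have hab' : wd (vL K a) (vL K b) ≠ 0 := wd_vL_ne hab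
  have hfib' := fib_cj hfib hab'
  rw [← hgL] at hfib' ⊢
  have hr := fib_unique w hd hgLh hfib'
  have hrsg : rs (fL K g) d = algebraMap K (AlgebraicClosure K) (rs g d) := rs_map _ g d
  have hrsg0 : rs (fL K g) d ≠ 0 := by
    rw [rs_ne_zero_iff hd hgLh]
    intro x hx
    by_contra hx0
    exact fib_ne_zero hfib' hx0 hx
  have hrg0 : rs g d ≠ 0 := by
    intro h
    rw [hrsg, h, map_zero] at hrsg0
    exact hrsg0 rfl
  -- the coefficients
  obtain ⟨B, -, hB⟩ := coef_le.{u} d hd
  have hcoef := (hB (AlgebraicClosure K) w (fL K g) hgLh hrsg0).2 hw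
  have hcf : ∀ p, w (cf d (fL K g) p) = v.val (cf d g p) := by
    intro p
    have : cf d (fL K g) p = algebraMap K (AlgebraicClosure K) (cf d g p) := by
      simp [cf, fL, MvPolynomial.coeff_map]
    rw [this, hext]
  have hcoefK : ∀ i m, (g i).coeff m = 0 ∨ ∃ p, (g i).coeff m = cf d g p := by
    intro i m
    by_cases hm : (g i).coeff m = 0
    · exact Or.inl hm
    · right
      have h1 : m.weight 1 = d := hg i hm
      have h2 : m 0 + m 1 = d := by
        rw [← h1]
        simp [Finsupp.weight_apply, Finsupp.sum_fintype, Fin.sum_univ_two]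
      refine ⟨(i, ⟨m 0, by omega⟩), ?_⟩
      have h3 : m = Finsupp.single 0 (m 0) + Finsupp.single 1 (d - m 0) := by
        ext j
        fin_cases j
        · simp
        · simp
          omega
      unfold cf
      simp only
      rw [← h3]
  obtain ⟨p0, -, hp0⟩ := Finset.exists_max_image (Finset.univ : Finset (Fin 2 × Fin (d + 1)))
    (fun p => v.val (cf d g p)) ⟨(0, 0), Finset.mem_univ _⟩
  have hc0 : cf d g p0 ≠ 0 := by
    intro h
    have hall : ∀ p, cf d g p = 0 := by
      intro p
      have h1 := hp0 p (Finset.mem_univ _)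
      rw [h, map_zero] at h1
      exact (AbsoluteValue.eq_zero v.val).1 (le_antisymm h1 (v.val.nonneg _))
    have hg0 : ∀ i, g i = 0 := by
      intro i
      ext m
      rcases hcoefK i m with h1 | ⟨p, h1⟩
      · rw [h1, MvPolynomial.coeff_zero]
      · rw [h1, hall p, MvPolynomial.coeff_zero]
    have h2 : ev (fL K g) ![1, 0] = 0 := by
      funext i
      simp [ev, fL, hg0]
    exact fib_ne_zero hfib' (by
      intro h3
      have := congrFun h3 0
      simp at this) h2
  set c : K := (cf d g p0)⁻¹ with hc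
  have hcne : c ≠ 0 := inv_ne_zero hc0
  have hv0 : 0 < v.val (cf d g p0) := v.val.pos hc0
  have hmem : -log (v.val (rs (fun i => MvPolynomial.C c * g i) d)) ∈
      {t : ℝ | ∃ g : Fin 2 → MvPolynomial (Fin 2) K, (∀ i, (g i).IsHomogeneous d) ∧
      (∀ i m, v.val ((g i).coeff m) ≤ 1) ∧ ConjTo f g ∧ t = -log (v.val (rs g d))} := by
    refine ⟨fun i => MvPolynomial.C c * g i, ?_, ?_, ?_, rfl⟩
    · intro i
      simpa using (MvPolynomial.isHomogeneous_C (Fin 2) c).mul (hg i)
    · intro i m
      rw [MvPolynomial.coeff_C_mul, map_mul, hc, map_inv₀, inv_mul_le_iff₀ hv0, mul_one]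
      rcases hcoefK i m with h1 | ⟨p, h1⟩
      · rw [h1, map_zero]
        exact hv0.le
      · rw [h1]
        exact hp0 p (Finset.mem_univ _)
    · refine ⟨!![a 0, b 0; a 1, b 1], c, ?_, hcne, fun x => ?_⟩
      · rw [Matrix.det_fin_two_of]
        have : wd a b ≠ 0 := hab
        unfold wd at this
        intro h
        apply this
        linear_combination h
      · have hemb : ∀ z : Fin 2 → K, Matrix.mulVec !![a 0, b 0; a 1, b 1] z = emb a b z := by
          intro z
          funext i
          fin_cases i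
          · simp [Matrix.mulVec, dotProduct, Fin.sum_univ_two, emb]
            ring
          · simp [Matrix.mulVec, dotProduct, Fin.sum_univ_two, emb]
            ring
        have hev : ev (fun i => MvPolynomial.C c * g i) x = c • ev g x := by
          funext i
          simp [ev]
        rw [hemb, hemb, hev, hgK, D2.emb_smul]
        unfold cj
        rw [D2.emb_coo hab]
  have hle : minres v.val d f ≤ -log (v.val (rs (fun i => MvPolynomial.C c * g i) d)) :=
    csInf_le ⟨0, fun t ht => minres_set_nonneg v.val (fp_isNonarch v) d f t ht⟩ hmem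
  refine hle.trans ?_
  have hvr : 0 < v.val (rs g d) := v.val.pos hrg0
  rw [G3.rs_smul, map_mul, map_pow, log_mul (pow_pos (v.val.pos hcne) _).ne' hvr.ne', log_pow,
    hc, map_inv₀, log_inv]
  unfold tt
  rw [hr, hrsg, hext]
  have h1 := hcoef p0
  rw [hcf] at h1
  have h2 : log (v.val (cf d g p0)) ≤ Ssup w (ev (fL K g)) := (log_le_iff_le_exp hv0).2 h1
  have h3 : (0 : ℝ) ≤ 2 * d := by positivity
  have h4 := mul_le_mul_of_nonneg_left h2 h3
  push_cast
  linarith

end Pool.Agent.TH450.NM
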