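import Pool.Agent.TH450.NM.C
import Pool.Agent.H951R3.PB.D6
import Pool.Agent.H951R3.PB.F8

/-!
# Cells of `K`-rational points at the finite places
-/

set_option autoImplicit false

namespace Pool.Agent.TH450.NM

open Real Pool.Agent.H951R3.PB NumberField Pool.Agent.H951R2.MS

universe u

/-- good coordinates at a place of potentially good reduction -/
theorem pot_frame {K : Type u} [Field K] [NumberField K] {d : ℕ} (hd : 2 ≤ d)
    {f : Fin 2 → MvPolynomial (Fin 2) K} (hf : ∀ i, (f i).IsHomogeneous d)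
    (h0 : rs (fL K f) d ≠ 0) (w : AbsoluteValue (AlgebraicClosure K) ℝ)
    (hw : IsNonarchimedean w) (h : PotGoodAt w d f) :
    ∃ a b : Fin 2 → AlgebraicClosure K, wd a b ≠ 0 ∧
      tt w (cj a b (ev (fL K f))) d (cr w d (log (w (rs (fL K f) d))) a b) ≤ 0 ∧
      ∀ x y, wd x y ≠ 0 → lam w (coo a b x) (coo a b y) ≤
        gg w (ev (fL K f)) d (log (w (rs (fL K f) d))) x y := by
  obtain ⟨g, hgh, hgood, A, c, hA, hc, hconj⟩ := h
  have hfL : ∀ i, (fL K f i).IsHomogeneous d := fun i => (hf i).map _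
  have hFib := fib_base w (by omega : 1 ≤ d) hfL h0
  set F := ev (fL K f) with hF
  set r := log (w (rs (fL K f) d)) with hr
  set a : Fin 2 → AlgebraicClosure K := fun i => A i 0 with ha
  set b : Fin 2 → AlgebraicClosure K := fun i => A i 1 with hb
  have hemb : ∀ z, emb a b z = A.mulVec z := by
    intro z
    funext i
    simp only [emb, ha, hb, Matrix.mulVec, dotProduct, Fin.sum_univ_two, Pi.add_apply,
      Pi.smul_apply, smul_eq_mul]
    ring
  have hab : wd a b ≠ 0 := by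
    have : wd a b = A.det := by
      rw [Matrix.det_fin_two]; simp only [wd, ha, hb]; ring
    rw [this]; exact hA
  have hev : ev g = fun z => c • cj a b F z := by
    funext z
    have h1 := hconj z
    rw [← hemb, ← hemb] at h1
    rw [cj, ← D2.coo_smul, ← h1, D2.coo_emb hab]
  have hfibg : Fib w (ev g) d (cr w d r a b + 2 * d * log (w c)) := by
    have hxy' : wd (![1, 0] : Fin 2 → AlgebraicClosure K) ![0, 1] ≠ 0 := by
      simp [wd]
    have h2 := (gg_scale hd (fib_cj hFib hab) hc hxy').1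
    rw [← hev] at h2
    exact h2
  have hρ := good_res hw (by omega) hgood hfibg
  have hS : Ssup w (cj a b F) = -log (w c) := by
    have h1 : ∀ v : {v : Fin 2 → AlgebraicClosure K // nrm w v = 1},
        log (nrm w (cj a b F v.1)) = -log (w c) := by
      intro v
      have h2 := F2.unit_ev w hw hgood v.2
      rw [hev] at h2
      simp only at h2
      rw [B1_nrm_smul] at h2
      have hc' : 0 < w c := w.pos hc
      have h3 : nrm w (cj a b F v.1) = (w c)⁻¹ := by
        field_simp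
        linarith
      rw [h3, log_inv]
    have hne : Nonempty {v : Fin 2 → AlgebraicClosure K // nrm w v = 1} :=
      ⟨⟨![1, 0], by simp [nrm]⟩⟩
    rw [Ssup, iSup_congr h1, ciSup_const]
  refine ⟨a, b, hab, ?_, ?_⟩
  · rw [tt, hS]
    linarith
  intro x y hxy
  obtain ⟨hx, hy⟩ := D2.wd_swap0 x y hxy
  have hex : emb a b (coo a b x) = x := D2.emb_coo hab x
  have hey : emb a b (coo a b y) = y := D2.emb_coo hab y
  have hxy' : wd (coo a b x) (coo a b y) ≠ 0 := by
    intro h0
    have := D2.wd_emb a b (coo a b x) (coo a b y)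
    rw [hex, hey, h0, mul_zero] at this
    exact hxy this
  have h1 := gg_cj hd hFib hab hxy'
  have h2 := gg_scale hd (fib_cj hFib hab) hc hxy'
  rw [hex, hey] at h1
  rw [← h1, ← h2.2]
  rw [← hev]
  set ρ := cr w d r a b + 2 * d * log (w c) with hρdef
  have hscale : ∀ v : Fin 2 → AlgebraicClosure K, v ≠ 0 →
      log (nrm w (ev g v)) = d * log (nrm w v) := by
    intro v hv
    obtain ⟨k, u, hk, hu, rfl⟩ := D2.unit_of w hv
    rw [fib_homog hfibg, B1_nrm_smul, B1_nrm_smul, F2.unit_ev w hw hgood hu, hu, mul_one,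
      mul_one, map_pow, log_pow]
  have hit : ∀ (n : ℕ) (v : Fin 2 → AlgebraicClosure K), v ≠ 0 →
      log (nrm w ((ev g)^[n] v)) = (d : ℝ) ^ n * log (nrm w v) := by
    intro n v hv
    induction n with
    | zero => simp
    | succ n ih =>
      rw [Function.iterate_succ_apply', hscale _ (fib_ne_zero (fib_iter hfibg n) hv), ih]
      ring
  have hd2 : (2 : ℝ) ≤ d := by exact_mod_cast hd
  have hGr : ∀ v : Fin 2 → AlgebraicClosure K, v ≠ 0 → Gr w (ev g) d v = log (nrm w v) := by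
    intro v hv
    have h3 := gr_tendsto hd hfibg hv
    have h4 : (fun n : ℕ => log (nrm w ((ev g)^[n] v)) / (d : ℝ) ^ n) =
        fun _ => log (nrm w v) := by
      funext n
      rw [hit n v hv]
      have : (d : ℝ) ^ n ≠ 0 := pow_ne_zero _ (by linarith)
      field_simp
    rw [h4] at h3
    exact tendsto_nhds_unique h3 tendsto_const_nhds
  have hρ0 : ρ ≤ 0 := by
    have hS : Ssup w (ev g) = 0 := by
      have : ∀ v : {v : Fin 2 → AlgebraicClosure K // nrm w v = 1},
          log (nrm w (ev g v.1)) = 0 := by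
        intro v
        rw [F2.unit_ev w hw hgood v.2, log_one]
      have hne : Nonempty {v : Fin 2 → AlgebraicClosure K // nrm w v = 1} :=
        ⟨⟨![1, 0], by simp [nrm]⟩⟩
      rw [Ssup, iSup_congr this, ciSup_const]
    obtain ⟨C, z, hz⟩ := hfibg ![1, 0] (by simp [nrm])
    have h5 := (fib_bounds_na w hw (by omega : 1 ≤ d) hfibg).1 _ C z (by simp [nrm]) hz
    rw [hS] at h5
    have h6 := hz.res
    have h7 : ∀ j, log (nrm w (ev g (z j))) = 0 := by
      intro j
      rw [F2.unit_ev w hw hgood (hz.unit j), log_one]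
    simp only [h7, Finset.sum_const_zero, add_zero] at h6
    rw [← h6]
    nlinarith
  have hta : 0 ≤ ta d ρ := by
    rw [ta]
    apply div_nonneg (by linarith)
    have : (0 : ℝ) ≤ d - 1 := by linarith
    positivity
  rw [gg, hGr _ (D2.coo_ne hab hx), hGr _ (D2.coo_ne hab hy), lam]
  linarith

/-- `λ` is not negative -/
theorem lam_nonneg {L : Type u} [Field L] (w : AbsoluteValue L ℝ) (hw : IsNonarchimedean w)
    {x y : Fin 2 → L} (hxy : wd x y ≠ 0) : 0 ≤ lam w x y := by
  obtain ⟨hx, hy⟩ := D2.wd_swap0 x y hxy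
  have hle := F2.wd_le w hw x y
  have hpos : 0 < w (wd x y) := w.pos hxy
  have hlog := Real.log_le_log hpos hle
  rw [log_mul (B1_nrm_pos w hx).ne' (B1_nrm_pos w hy).ne'] at hlog
  rw [lam]
  linarith

/-- two cells at a place of potentially good reduction -/
theorem pot_two {K : Type u} [Field K] [NumberField K] {d : ℕ} (hd : 2 ≤ d)
    {f : Fin 2 → MvPolynomial (Fin 2) K} (hf : ∀ i, (f i).IsHomogeneous d)
    (h0 : rs f d ≠ 0) (v : FinitePlace K) (w : AbsoluteValue (AlgebraicClosure K) ℝ)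
    (hext : Ext v.val w) (hw : IsNonarchimedean w) (h : PotGoodAt w d f) :
    ∃ cell : (Fin 2 → K) → Fin 2, ∀ x y, wd x y ≠ 0 →
      -(minres v.val d f / (8 * ((d : ℝ) ^ 2 + d)) / 2) ≤
        gg w (ev (fL K f)) d (log (w (rs (fL K f) d))) (vL K x) (vL K y) ∧
      (cell x = cell y → 4 * (minres v.val d f / (8 * ((d : ℝ) ^ 2 + d))) ≤
        gg w (ev (fL K f)) d (log (w (rs (fL K f) d))) (vL K x) (vL K y)) := by
  have hrs : rs (fL K f) d = algebraMap K (AlgebraicClosure K) (rs f d) := rs_map _ f d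
  have hrs0 : rs (fL K f) d ≠ 0 := by
    rw [hrs]
    exact (map_ne_zero_iff _ (algebraMap K (AlgebraicClosure K)).injective).2 h0
  have hfL : ∀ i, (fL K f i).IsHomogeneous d := fun i => (hf i).map _
  have hFib := fib_base w (by omega : 1 ≤ d) hfL hrs0
  obtain ⟨a, b, hab, htt, hlam⟩ := pot_frame hd hf hrs0 w hw h
  have hM := minres_nonneg v.val (fp_isNonarch v) d f
  have hE : (0 : ℝ) < (d : ℝ) ^ 2 + d := by
    have : (2 : ℝ) ≤ d := by exact_mod_cast hd
    positivity
  set M := minres v.val d f with hMdef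
  have hgg0 : ∀ x y : Fin 2 → K, wd x y ≠ 0 →
      0 ≤ gg w (ev (fL K f)) d (log (w (rs (fL K f) d))) (vL K x) (vL K y) := by
    intro x y hxy
    exact potgood_gg hd hf hrs0 w hw h (wd_vL_ne hxy)
  rcases hM.eq_or_lt with h1 | h1
  · refine ⟨fun _ => 0, fun x y hxy => ?_⟩
    have h2 := hgg0 x y hxy
    rw [← h1]
    simp only [zero_div, mul_zero, neg_zero]
    exact ⟨h2, fun _ => h2⟩
  · have hε : 0 < M / (2 * ((d : ℝ) ^ 2 + d)) := by positivity
    obtain ⟨e, f', δ, hef, ⟨cell, hcell⟩, htr⟩ := rat_frame v w hext hw hab hε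
    refine ⟨cell, fun x y hxy => ⟨?_, fun hc => ?_⟩⟩
    · have h2 := hgg0 x y hxy
      have h3 : 0 ≤ M / (8 * ((d : ℝ) ^ 2 + d)) / 2 := by positivity
      linarith
    · have h2 := hcell x y hxy hc
      have h3 := hlam (vL K x) (vL K y) (wd_vL_ne hxy)
      have h4 := minres_le (by omega : 1 ≤ d) hf h0 v w hext hw hef
      have h5 := htr (ev (fL K f)) d _ hFib
      have h6 : M ≤ ((d : ℝ) ^ 2 + d) * δ := by linarith
      have h7 : M / ((d : ℝ) ^ 2 + d) ≤ δ := by
        rw [div_le_iff₀ hE]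
        linarith
      have h8 : 4 * (M / (8 * ((d : ℝ) ^ 2 + d))) = M / ((d : ℝ) ^ 2 + d) -
          M / (2 * ((d : ℝ) ^ 2 + d)) := by
        field_simp
        ring
      rw [h8]
      linarith

/-- the Green pairing and `λ` in a frame of nearly minimal size -/
theorem gg_ge_lam' (d : ℕ) (hd : 2 ≤ d) : ∃ B : ℝ, 0 ≤ B ∧
    ∀ (L : Type u) [Field L] [IsAlgClosed L] [CharZero L] (w : AbsoluteValue L ℝ)
      (F : (Fin 2 → L) → Fin 2 → L) (r : ℝ), Fib w F d r →
    ∀ a b : Fin 2 → L, wd a b ≠ 0 → tt w (cj a b F) d (cr w d r a b) ≤ mm w F d r + 1 →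
      ∀ x y, wd x y ≠ 0 →
      lam w (coo a b x) (coo a b y) - B * (max (mm w F d r) 0 + 1) ≤ gg w F d r x y := by
  obtain ⟨B1, hB1, H1⟩ := gr_lower.{u} d hd
  refine ⟨2 * (1 + B1) + 2, by linarith, ?_⟩
  intro L _ _ _ w F r h a b hab ht x y hxy
  obtain ⟨hx, hy⟩ := D2.wd_swap0 x y hxy
  set x' := coo a b x with hx'
  set y' := coo a b y with hy'
  have hx0 : x' ≠ 0 := D2.coo_ne hab hx
  have hy0 : y' ≠ 0 := D2.coo_ne hab hy
  have hex : emb a b x' = x := D2.emb_coo hab x
  have hey : emb a b y' = y := D2.emb_coo hab y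
  have hw' : wd x' y' ≠ 0 := by
    intro h0
    have := D2.wd_emb a b x' y'
    rw [hex, hey, h0, mul_zero] at this
    exact hxy this
  have hgg := gg_cj hd h hab hw'
  rw [hex, hey] at hgg
  have hF := fib_cj h hab
  have g1 := H1 L w _ _ hF x' hx0 0
  have g2 := H1 L w _ _ hF y' hy0 0
  set t := tt w (cj a b F) d (cr w d r a b) with htdef
  set S := Ssup w (cj a b F) with hS
  set r' := cr w d r a b with hr'
  simp only [Function.iterate_zero, id, pow_zero, div_one, one_mul] at g1 g2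
  rw [← hgg, gg, lam, ta]
  have hd2 : (2 : ℝ) ≤ d := by exact_mod_cast hd
  have hd0 : (0 : ℝ) < d := by linarith
  have hd1 : (0 : ℝ) < d - 1 := by linarith
  have hd1' : (d : ℝ) - 1 ≠ 0 := hd1.ne'
  have htt : t = -r' + 2 * d * S := rfl
  have e1 : -r' / (d * (d - 1)) = t / (d * (d - 1)) - 2 * S / (d - 1) := by
    rw [htt]; field_simp; ring
  have e2 : (t - S + B1) / ((d : ℝ) - 1) = (t + B1) / (d - 1) - S / (d - 1) := by
    field_simp; ring
  rw [e1]
  rw [e2] at g1 g2
  have e3 : (2 * S) / ((d : ℝ) - 1) = 2 * (S / (d - 1)) := by ring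
  rw [e3]
  have hm0 : 0 ≤ max (mm w F d r) 0 := le_max_right _ _
  have htm : t ≤ max (mm w F d r) 0 + 1 := ht.trans (by gcongr; exact le_max_left _ _)
  have e4 : -((2 * (1 + B1) + 2) * (max (mm w F d r) 0 + 1)) ≤
      t / (d * (d - 1)) - 2 * ((t + B1) / (d - 1)) := by
    set M := max (mm w F d r) 0 with hM
    have e5 : t / ((d : ℝ) * (d - 1)) - 2 * ((t + B1) / (d - 1)) =
        -((2 - 1 / d) * (t / (d - 1))) - 2 * (B1 / (d - 1)) := by
      field_simp; ring
    rw [e5]
    have h1 : B1 / ((d : ℝ) - 1) ≤ B1 := div_le_self hB1 (by linarith)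
    have h2 : t / ((d : ℝ) - 1) ≤ M + 1 := by
      rw [div_le_iff₀ hd1]
      nlinarith
    have h3 : (1 : ℝ) / d ≤ 1 := by rw [div_le_one hd0]; linarith
    have h4 : (0 : ℝ) ≤ 1 / d := by positivity
    have h5 : (2 - 1 / (d : ℝ)) * (t / (d - 1)) ≤ (2 - 1 / (d : ℝ)) * (M + 1) :=
      mul_le_mul_of_nonneg_left h2 (by linarith)
    have h6 : (2 - 1 / (d : ℝ)) * (M + 1) ≤ 2 * (M + 1) :=
      mul_le_mul_of_nonneg_right (by linarith) (by linarith)
    nlinarith
  linarith

/-- two cells at an arbitrary finite place -/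
theorem gen_two (d : ℕ) (hd : 2 ≤ d) : ∃ B : ℝ, 0 ≤ B ∧
    ∀ (K : Type u) [Field K] [NumberField K] (f : Fin 2 → MvPolynomial (Fin 2) K),
    (∀ i, (f i).IsHomogeneous d) → rs f d ≠ 0 → ∀ (v : FinitePlace K)
    (w : AbsoluteValue (AlgebraicClosure K) ℝ), Ext v.val w → IsNonarchimedean w →
    ∃ cell : (Fin 2 → K) → Fin 2, ∀ x y, wd x y ≠ 0 →
      -(B * (1 + max (msz d f w) 0)) ≤
        gg w (ev (fL K f)) d (log (w (rs (fL K f) d))) (vL K x) (vL K y) ∧
      (cell x = cell y → minres v.val d f / ((d : ℝ) ^ 2 + d) - B * (1 + max (msz d f w) 0) ≤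
        gg w (ev (fL K f)) d (log (w (rs (fL K f) d))) (vL K x) (vL K y)) := by
  obtain ⟨B, hB, hgg⟩ := gg_ge_lam'.{u} d hd
  refine ⟨B + 2, by linarith, ?_⟩
  intro K _ _ f hf h0 v w hext hw
  have hrs : rs (fL K f) d = algebraMap K (AlgebraicClosure K) (rs f d) := rs_map _ f d
  have hrs0 : rs (fL K f) d ≠ 0 := by
    rw [hrs]
    exact (map_ne_zero_iff _ (algebraMap K (AlgebraicClosure K)).injective).2 h0
  have hfL : ∀ i, (fL K f i).IsHomogeneous d := fun i => (hf i).map _
  have hFib := fib_base w (by omega : 1 ≤ d) hfL hrs0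
  have hd2 : (2 : ℝ) ≤ d := by exact_mod_cast hd
  have hE : (1 : ℝ) ≤ (d : ℝ) ^ 2 + d := by nlinarith
  obtain ⟨a, b, hab, htt⟩ := exists_mm hd hFib
  obtain ⟨e, f', δ, hef, ⟨cell, hcell⟩, htr⟩ := rat_frame v w hext hw hab one_pos
  have hmsz : msz d f w = mm w (ev (fL K f)) d (log (w (rs (fL K f) d))) := rfl
  set m := mm w (ev (fL K f)) d (log (w (rs (fL K f) d))) with hm
  have hm0 : 0 ≤ max m 0 := le_max_right _ _
  have hm1 : m ≤ max m 0 := le_max_left _ _
  rw [hmsz]
  refine ⟨cell, fun x y hxy => ⟨?_, fun hc => ?_⟩⟩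
  · have h1 := hgg _ w _ _ hFib a b hab htt (vL K x) (vL K y) (wd_vL_ne hxy)
    have hxy' : wd (coo a b (vL K x)) (coo a b (vL K y)) ≠ 0 := by
      rw [F7.wd_coo _ _ _ _ hab]
      exact div_ne_zero (wd_vL_ne hxy) hab
    have h2 := lam_nonneg w hw hxy'
    nlinarith
  · have h1 := hgg _ w _ _ hFib a b hab htt (vL K x) (vL K y) (wd_vL_ne hxy)
    have h2 := hcell x y hxy hc
    have h4 := minres_le (by omega : 1 ≤ d) hf h0 v w hext hw hef
    have h5 := htr (ev (fL K f)) d _ hFib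
    have h6 : minres v.val d f / ((d : ℝ) ^ 2 + d) ≤ (max m 0 + 1) + δ := by
      rw [div_le_iff₀ (by linarith)]
      nlinarith
    nlinarith

end Pool.Agent.TH450.NM
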