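import Pool.Agent.TH450.NM.A
import Pool.Agent.TH450.NM.D

/-!
# The number of points of small height: core inequality with minimal resultants
-/

set_option autoImplicit false

namespace Pool.Agent.TH450.NM

open Real Pool.Agent.H951R3.PB NumberField Finset

universe u

theorem core_W (d : ℕ) (hd : 2 ≤ d) (D : ℕ) : ∃ C ε E : ℝ, 1 ≤ C ∧ 0 < ε ∧ 1 ≤ E ∧
    ∀ (K : Type u) [Field K] [NumberField K],
    ∀ f : Fin 2 → MvPolynomial (Fin 2) K, (∀ i, (f i).IsHomogeneous d) → rs f d ≠ 0 →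
    ∀ (wi : InfinitePlace K → AbsoluteValue (AlgebraicClosure K) ℝ) (_ : ∀ v, Ext v.val (wi v))
      (wf : FinitePlace K → AbsoluteValue (AlgebraicClosure K) ℝ) (_ : ∀ v, Ext v.val (wf v))
      (T S : Finset (FinitePlace K)) (v₁ : FinitePlace K),
      Ideal.absNorm v₁.maximalIdeal.asIdeal ≤ 2 ^ D → (∀ v, v ∉ T → PotGoodAt (wf v) d f) →
      (∀ v ∈ S, v ∉ T ∨ E * (1 + max (msz d f (wf v)) 0) ≤ minres v.val d f) →
    ∀ (j : InfinitePlace K ⊕ T) (R : ℝ), 1 ≤ R →
      ∑ v : InfinitePlace K, (1 + max (msz d f (wi v)) 0) +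
        ∑ v ∈ T, (1 + max (msz d f (wf v)) 0) ≤
        R * (1 + max (msz d f (Sum.elim wi (fun v : T => wf v.1) j)) 0 +
          ∑ v ∈ S, minres v.val d f) →
    ∃ H : ℝ, 1 ≤ H ∧
      1 + max (msz d f (Sum.elim wi (fun v : T => wf v.1) j)) 0 + ∑ v ∈ S, minres v.val d f ≤
        C * H ∧
      ∑ v ∈ T, minres v.val d f ≤ C * (H + ∑ v ∈ T, (1 + max (msz d f (wf v)) 0)) ∧
      ∀ X : Finset (Fin 2 → K), (∀ x ∈ X, x ≠ 0) → (∀ x ∈ X, ∀ y ∈ X, x ≠ y → wd x y ≠ 0) →
        (∀ x ∈ X, hcan d f x ≤ ε * H) →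
        (X.card : ℝ) ≤ C * (1 + C * R * Nat.log d X.card) := by
  obtain ⟨B1, hB1, hmmge⟩ := mm_ge.{u} d hd
  obtain ⟨M, c, B2, hc, hB2, hgain⟩ := gain.{u} d hd
  obtain ⟨B3, hB3, hloss⟩ := loss.{u} d hd
  obtain ⟨B4, hB4, hgen⟩ := gen_two.{u} d hd
  set B := max B1 (max B2 B3) with hBdef
  have hB0 : 0 ≤ B := hB1.trans (le_max_left _ _)
  have hB1' : B1 ≤ B := le_max_left _ _
  have hB2' : B2 ≤ B := (le_max_left _ _).trans (le_max_right _ _)
  have hB3' : B3 ≤ B := (le_max_right _ _).trans (le_max_right _ _)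
  obtain ⟨M', haux⟩ := aux_gain.{u} d hd (2 ^ D) (2 * (4 * (c + 1) * B + 2))
  set A : ℝ := 4 * (c + 1) * B + 2 with hA
  have hA0 : 0 ≤ A := by positivity
  set δ₀ : ℝ := (d : ℝ) ^ 2 + d with hδ₀
  have hd2 : (2 : ℝ) ≤ d := by exact_mod_cast hd
  have hδ₀1 : 1 ≤ δ₀ := by nlinarith
  have hδ₀0 : 0 < δ₀ := by linarith
  set E : ℝ := 16 * δ₀ * (B4 + 1) with hE
  have hE1 : 1 ≤ E := by nlinarith [mul_nonneg hB4 hδ₀0.le]
  have hE0 : 0 < E := by linarith
  have hε : 0 < min (c / 16) (1 / 16) := lt_min (by positivity) (by norm_num)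
  set C' : ℝ := 1 + 16 * δ₀ + E with hC'
  have hC'1 : 1 ≤ C' := by linarith
  set Y : ℝ := 32 * (1 + B) * (1 + 1 / c) with hY
  have hY0 : 0 < Y := by positivity
  set C : ℝ := max C' (max (4 * (M * (M' * 2 : ℕ) * d)) (Y * (C' + 1))) with hCdef
  have hC1 : C' ≤ C := le_max_left _ _
  have hC2 : 4 * (M * (M' * 2 : ℕ) * d : ℝ) ≤ C := (le_max_left _ _).trans (le_max_right _ _)
  have hC3 : Y * (C' + 1) ≤ C := (le_max_right _ _).trans (le_max_right _ _)
  have hC0 : 0 < C := by linarith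
  refine ⟨C, min (c / 16) (1 / 16), E, by linarith, hε, hE1, ?_⟩
  intro K _ _ f hf h0 wi hwi wf hwf T S v₁ hv₁ hT hS j R hR1 hR
  classical
  set F := ev (fL K f) with hF
  have hrs : rs (fL K f) d = algebraMap K (AlgebraicClosure K) (rs f d) := rs_map _ f d
  have hrs0 : rs (fL K f) d ≠ 0 := by
    rw [hrs]
    exact (map_ne_zero_iff _ (algebraMap K (AlgebraicClosure K)).injective).2 h0
  have hfL : ∀ i, (fL K f i).IsHomogeneous d := fun i => (hf i).map _
  have hfib : ∀ w : AbsoluteValue (AlgebraicClosure K) ℝ,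
      Fib w F d (log (w (rs (fL K f) d))) := fun w => fib_base w (by omega) hfL hrs0
  have hna : ∀ v, IsNonarchimedean (wf v) := fun v => ext_na v (wf v) (hwf v)
  -- abbreviations
  obtain ⟨Mr, hMr⟩ : ∃ Mr : FinitePlace K → ℝ, ∀ v, Mr v = minres v.val d f := ⟨_, fun _ => rfl⟩
  obtain ⟨a, ha⟩ : ∃ a : FinitePlace K → ℝ, ∀ v, a v = 1 + max (msz d f (wf v)) 0 :=
    ⟨_, fun _ => rfl⟩
  have hMr0 : ∀ v, 0 ≤ Mr v := fun v => by
    rw [hMr]
    exact minres_nonneg v.val (Pool.Agent.H951R2.MS.fp_isNonarch v) d f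
  have ha1 : ∀ v, 1 ≤ a v := fun v => by
    rw [ha]
    have := le_max_right (msz d f (wf v)) 0
    linarith
  have ha1' : ∀ v, v ∉ T → a v = 1 := by
    intro v hv
    rw [ha, max_eq_right (msz_le_of_potGoodAt hd hf hrs0 _ (hna v) (hT v hv)), add_zero]
  set Q : FinitePlace K → ℝ := fun v => if E * a v ≤ Mr v then Mr v else 0 with hQ
  have hQ0 : ∀ v, 0 ≤ Q v := fun v => by
    simp only [hQ]
    split_ifs
    · exact hMr0 v
    · exact le_rfl
  set S₁ : Finset (FinitePlace K) := insert v₁ (T.filter fun v => ¬ E * a v ≤ Mr v) with hS₁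
  set S₂ : Finset (FinitePlace K) :=
    ((S ∪ T).filter fun v => v ∉ T ∨ E * a v ≤ Mr v).erase v₁ with hS₂
  have hS' : ∀ v ∈ S, v ∉ T ∨ E * a v ≤ Mr v := by
    intro v hv
    rw [ha, hMr]
    exact hS v hv
  have hdisj : Disjoint S₁ S₂ := by
    rw [Finset.disjoint_left]
    intro v h1 h2
    rw [hS₁, Finset.mem_insert, Finset.mem_filter] at h1
    rw [hS₂, Finset.mem_erase, Finset.mem_filter] at h2
    rcases h1 with h1 | ⟨h1, h3⟩
    · exact h2.1 h1
    · rcases h2.2.2 with h4 | h4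
      · exact h4 h1
      · exact h3 h4
  have hmem2 : ∀ v ∈ S₂, v ∉ T ∨ E * a v ≤ Mr v := by
    intro v h2
    rw [hS₂, Finset.mem_erase, Finset.mem_filter] at h2
    exact h2.2.2
  have hcover : ∀ v, v ∉ S₁ ∪ S₂ → PotGoodAt (wf v) d f := by
    intro v hv
    apply hT
    intro hvT
    apply hv
    rw [Finset.mem_union]
    by_cases h1 : v = v₁
    · left
      rw [hS₁, h1]
      exact Finset.mem_insert_self _ _
    · by_cases h2 : E * a v ≤ Mr v
      · right
        rw [hS₂, Finset.mem_erase, Finset.mem_filter, Finset.mem_union]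
        exact ⟨h1, Or.inr hvT, Or.inr h2⟩
      · left
        rw [hS₁, Finset.mem_insert, Finset.mem_filter]
        exact Or.inr ⟨hvT, h2⟩
  set p₀ : ℝ := Q v₁ / (8 * δ₀) with hp₀
  have hp₀0 : 0 ≤ p₀ := div_nonneg (hQ0 _) (by positivity)
  set p : S₂ → ℝ := fun v => Mr v.1 / (8 * δ₀) with hp
  have hp0 : ∀ v, 0 ≤ p v := fun v => div_nonneg (hMr0 _) (by positivity)
  have hsum2 : ∑ v : S₂, p v = (∑ v ∈ S₂, Mr v) / (8 * δ₀) := by
    rw [Finset.sum_div, ← Finset.sum_coe_sort S₂]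
  set P : ℝ := p₀ + ∑ v, p v with hP
  have hP0 : 0 ≤ P := add_nonneg hp₀0 (Finset.sum_nonneg fun v _ => hp0 v)
  have h8P : 8 * δ₀ * P = Q v₁ + ∑ v ∈ S₂, Mr v := by
    rw [hP, hsum2, hp₀]
    field_simp
  -- the sum of the resultants over S
  have hSsum : ∑ v ∈ S, Mr v ≤ 8 * δ₀ * P + E := by
    have h1 : ∑ v ∈ S, Mr v ≤ (Q v₁ + E) + ∑ v ∈ S.erase v₁, Mr v := by
      by_cases hv : v₁ ∈ S
      · rw [← Finset.add_sum_erase S Mr hv]
        have h2 : Mr v₁ ≤ Q v₁ + E := by
          simp only [hQ]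
          split_ifs with h3
          · linarith
          · rcases hS' v₁ hv with h4 | h4
            · rw [ha1' v₁ h4] at h3
              push Not at h3
              linarith
            · exact absurd h4 h3
        linarith
      · rw [Finset.erase_eq_of_notMem hv]
        have := hQ0 v₁
        linarith
    have h2 : ∑ v ∈ S.erase v₁, Mr v ≤ ∑ v ∈ S₂, Mr v := by
      refine Finset.sum_le_sum_of_subset_of_nonneg ?_ fun v _ _ => hMr0 v
      intro v hv
      rw [Finset.mem_erase] at hv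
      rw [hS₂, Finset.mem_erase, Finset.mem_filter, Finset.mem_union]
      exact ⟨hv.1, Or.inl hv.2, hS' v hv.2⟩
    rw [h8P]
    linarith
  have hTsum : ∑ v ∈ T, Mr v ≤ 8 * δ₀ * P + E * ∑ v ∈ T, a v := by
    have h1 : ∀ v ∈ T, Mr v ≤ Q v + E * a v := by
      intro v _
      simp only [hQ]
      have h2 : 0 ≤ E * a v := mul_nonneg hE0.le (by linarith [ha1 v])
      split_ifs with h3
      · linarith
      · push Not at h3
        linarith
    have h2 : ∑ v ∈ T, Q v ≤ 8 * δ₀ * P := by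
      rw [h8P]
      have h3 : ∑ v ∈ T, Q v ≤ Q v₁ + ∑ v ∈ T.erase v₁, Q v := by
        by_cases hv : v₁ ∈ T
        · rw [← Finset.add_sum_erase T Q hv]
        · rw [Finset.erase_eq_of_notMem hv]
          have := hQ0 v₁
          linarith
      have h4 : ∑ v ∈ T.erase v₁, Q v = ∑ v ∈ (T.erase v₁).filter (fun v => E * a v ≤ Mr v),
          Mr v := by
        rw [Finset.sum_filter]
      have h5 : ∑ v ∈ (T.erase v₁).filter (fun v => E * a v ≤ Mr v), Mr v ≤ ∑ v ∈ S₂, Mr v := by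
        refine Finset.sum_le_sum_of_subset_of_nonneg ?_ fun v _ _ => hMr0 v
        intro v hv
        rw [Finset.mem_filter, Finset.mem_erase] at hv
        rw [hS₂, Finset.mem_erase, Finset.mem_filter, Finset.mem_union]
        exact ⟨hv.1.1, Or.inr hv.1.2, Or.inr hv.2⟩
      linarith
    calc ∑ v ∈ T, Mr v ≤ ∑ v ∈ T, (Q v + E * a v) := Finset.sum_le_sum h1
      _ = ∑ v ∈ T, Q v + E * ∑ v ∈ T, a v := by rw [Finset.sum_add_distrib, Finset.mul_sum]
      _ ≤ _ := by linarith
  -- the number μ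
  let W : InfinitePlace K ⊕ S₁ → AbsoluteValue (AlgebraicClosure K) ℝ :=
    Sum.elim wi (fun v => wf v.1)
  obtain ⟨μ, hμ, hμj⟩ : ∃ μ : ℝ, (μ ≤ 0 ∨ ∃ i, μ ≤ mm (W i) F d (log (W i (rs (fL K f) d)))) ∧
      max (msz d f (Sum.elim wi (fun v : T => wf v.1) j)) 0 ≤ max μ 0 + 8 * δ₀ * P := by
    have h8P0 : 0 ≤ 8 * δ₀ * P := by positivity
    rcases j with v | v
    · refine ⟨msz d f (wi v), Or.inr ⟨Sum.inl v, le_rfl⟩, ?_⟩
      show max (msz d f (wi v)) 0 ≤ _
      linarith
    · by_cases hv : v.1 ∈ S₁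
      · refine ⟨msz d f (wf v.1), Or.inr ⟨Sum.inr ⟨v.1, hv⟩, le_rfl⟩, ?_⟩
        show max (msz d f (wf v.1)) 0 ≤ _
        linarith
      · refine ⟨0, Or.inl le_rfl, ?_⟩
        show max (msz d f (wf v.1)) 0 ≤ _
        rw [max_self, zero_add]
        rw [hS₁, Finset.mem_insert, Finset.mem_filter, not_or, not_and, not_not] at hv
        have h1 : E * a v.1 ≤ Mr v.1 := hv.2 v.2
        have h2 : v.1 ∈ S₂ := by
          rw [hS₂, Finset.mem_erase, Finset.mem_filter, Finset.mem_union]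
          exact ⟨hv.1, Or.inr v.2, Or.inr h1⟩
        have h3 : Mr v.1 ≤ ∑ v ∈ S₂, Mr v :=
          Finset.single_le_sum (f := Mr) (fun v _ => hMr0 v) h2
        rw [h8P]
        have h4 := hQ0 v₁
        have h5 : max (msz d f (wf v.1)) 0 ≤ a v.1 := by rw [ha]; linarith
        have h6 : a v.1 ≤ E * a v.1 := by
          have := ha1 v.1
          nlinarith
        linarith
  set H : ℝ := 1 + max μ 0 + P with hH
  have hH1 : 1 ≤ H := by
    have := le_max_right μ 0
    linarith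
  have hii : 1 + max (msz d f (Sum.elim wi (fun v : T => wf v.1) j)) 0 + ∑ v ∈ S, Mr v ≤
      C' * H := by
    have h1 : 0 ≤ max μ 0 := le_max_right _ _
    have h2 : C' * H = (1 + max μ 0 + P) + 16 * δ₀ * (1 + max μ 0 + P) +
        E * (1 + max μ 0 + P) := by
      rw [hC', hH]
      ring
    rw [h2]
    have h3 : 16 * δ₀ * P ≤ 16 * δ₀ * (1 + max μ 0 + P) :=
      mul_le_mul_of_nonneg_left (by linarith) (by positivity)
    have h4 : E * 1 ≤ E * (1 + max μ 0 + P) := mul_le_mul_of_nonneg_left hH1 hE0.le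
    linarith
  refine ⟨H, hH1, ?_, ?_, ?_⟩
  · have h1 : ∑ v ∈ S, minres v.val d f = ∑ v ∈ S, Mr v :=
      Finset.sum_congr rfl fun v _ => (hMr v).symm
    rw [h1]
    exact hii.trans (mul_le_mul_of_nonneg_right hC1 (by linarith))
  · have h1 : ∑ v ∈ T, minres v.val d f = ∑ v ∈ T, Mr v :=
      Finset.sum_congr rfl fun v _ => (hMr v).symm
    have h2 : ∑ v ∈ T, (1 + max (msz d f (wf v)) 0) = ∑ v ∈ T, a v :=
      Finset.sum_congr rfl fun v _ => (ha v).symm
    rw [h1, h2]
    have h3 : 0 ≤ ∑ v ∈ T, a v := Finset.sum_nonneg fun v _ => by linarith [ha1 v]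
    have h4 : 8 * δ₀ * P ≤ C * H := by
      calc 8 * δ₀ * P ≤ C' * H := by
            have h5 : P ≤ H := by
              have := le_max_right μ 0
              linarith
            have h6 : 8 * δ₀ ≤ C' := by linarith
            exact mul_le_mul h6 h5 hP0 (by linarith)
        _ ≤ C * H := mul_le_mul_of_nonneg_right hC1 (by linarith)
    have h5 : E * ∑ v ∈ T, a v ≤ C * ∑ v ∈ T, a v := by
      refine mul_le_mul_of_nonneg_right ?_ h3
      linarith
    rw [mul_add]
    linarith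
  intro X hX0 hX hcanX
  let n : InfinitePlace K ⊕ S₁ → ℝ := Sum.elim (fun v => (v.mult : ℝ)) (fun _ => 1)
  let G : InfinitePlace K ⊕ S₁ → (Fin 2 → K) → (Fin 2 → K) → ℝ := fun i x y =>
    gg (W i) F d (log (W i (rs (fL K f) d))) (vL K x) (vL K y)
  let G' : S₂ → (Fin 2 → K) → (Fin 2 → K) → ℝ := fun v x y =>
    gg (wf v.1) F d (log (wf v.1 (rs (fL K f) d))) (vL K x) (vL K y)
  have hmult : ∀ v : InfinitePlace K, 1 ≤ (v.mult : ℝ) ∧ (v.mult : ℝ) ≤ 2 := by
    intro v
    have h1 : v.mult = 1 ∨ v.mult = 2 := by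
      unfold InfinitePlace.mult
      split_ifs
      · exact Or.inl rfl
      · exact Or.inr rfl
    rcases h1 with h1 | h1 <;> rw [h1] <;> norm_num
  have hv₁S : v₁ ∈ S₁ := by
    rw [hS₁]
    exact Finset.mem_insert_self _ _
  -- the consequences of being large
  have hlarge : ∀ v, E * a v ≤ Mr v → B4 * a v ≤ Mr v / (16 * δ₀) := by
    intro v hv
    rw [le_div_iff₀ (by positivity)]
    have h1 : 0 ≤ a v := by linarith [ha1 v]
    rw [hE] at hv
    nlinarith [mul_nonneg hδ₀0.le h1]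
  have key := count_W (V := Fin 2 → K) hd n
    (by rintro (v | v)
        · exact (hmult v).1
        · exact le_rfl)
    (by rintro (v | v)
        · exact (hmult v).2
        · show (1 : ℝ) ≤ 2
          norm_num)
    (fun i => mm (W i) F d (log (W i (rs (fL K f) d)))) G hB0 hc
    (A := A) le_rfl
    (fun i => le_trans (by linarith) (hmmge _ (W i) F _ (hfib (W i)))) X
    (by
      intro i k x hinj hxX
      have hne : ∀ a b, a ≠ b → wd (x a) (x b) ≠ 0 := fun a b hab =>
        hX _ (hxX a) _ (hxX b) (fun h => hab (hinj h))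
      have h1 := hloss _ (W i) (fL K f) hfL hrs0 k (fun j => vL K (x j))
        (fun j => vL_ne (hX0 _ (hxX j))) (fun a b hab => wd_vL_ne (hne a b hab))
      refine le_trans ?_ h1
      have h2 : (d : ℝ) ^ k * (k * (mm (W i) F d (log (W i (rs (fL K f) d))) + B3)) ≤
          (d : ℝ) ^ k * (k * (mm (W i) F d (log (W i (rs (fL K f) d))) + B)) := by
        gcongr
      linarith)
    (M := M)
    (by
      intro i
      obtain ⟨cell, hcell⟩ := hgain _ (W i) F _ (hfib (W i))
      refine ⟨fun x => cell (vL K x), fun x hx y hy hxy hc' => ?_⟩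
      have := hcell _ _ (wd_vL_ne (hX x hx y hy hxy)) hc'
      exact le_trans (by linarith) this)
    (Sum.inr ⟨v₁, hv₁S⟩) (p₀ := p₀) hp₀0 (M' := M' * 2)
    (by
      obtain ⟨cell, hcell⟩ := haux K v₁ hv₁ (wf v₁) (hwf v₁) (hna v₁) F _ (hfib (wf v₁))
      obtain ⟨cell2, hcell2⟩ := hgen K f hf h0 v₁ (wf v₁) (hwf v₁) (hna v₁)
      refine ⟨fun x => finProdFinEquiv (cell x, cell2 x), fun x hx y hy hxy hc' => ?_⟩
      have hw := hX x hx y hy hxy
      have hc1 := finProdFinEquiv.injective hc'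
      have e1 := hcell x y hw (Prod.ext_iff.1 hc1).1
      have e2 := (hcell2 x y hw).2 (Prod.ext_iff.1 hc1).2
      rw [← hMr, ← ha] at e2
      show A + p₀ ≤ gg (wf v₁) F d (log (wf v₁ (rs (fL K f) d))) (vL K x) (vL K y)
      rw [hp₀]
      simp only [hQ]
      split_ifs with h3
      · have h4 := hlarge v₁ h3
        have h5 : Mr v₁ / δ₀ - Mr v₁ / (16 * δ₀) = 15 / 2 * (Mr v₁ / (8 * δ₀)) := by
          field_simp
          ring
        have h6 : 0 ≤ Mr v₁ / (8 * δ₀) := div_nonneg (hMr0 _) (by positivity)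
        linarith
      · rw [zero_div, add_zero]
        linarith)
    p hp0 G'
    (by
      intro v
      by_cases hvT : v.1 ∈ T
      · have hv2 : E * a v.1 ≤ Mr v.1 := by
          rcases hmem2 v.1 v.2 with h1 | h1
          · exact absurd hvT h1
          · exact h1
        obtain ⟨cell2, hcell2⟩ := hgen K f hf h0 v.1 (wf v.1) (hwf v.1) (hna v.1)
        refine ⟨cell2, fun x hx y hy hxy => ?_⟩
        have hw := hX x hx y hy hxy
        have e2 := hcell2 x y hw
        rw [← hMr, ← ha] at e2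
        have h4 := hlarge v.1 hv2
        have h5 : Mr v.1 / δ₀ - Mr v.1 / (16 * δ₀) = 15 / 2 * (Mr v.1 / (8 * δ₀)) := by
          field_simp
          ring
        have h6 : 0 ≤ Mr v.1 / (8 * δ₀) := div_nonneg (hMr0 _) (by positivity)
        have h7 : Mr v.1 / (16 * δ₀) = Mr v.1 / (8 * δ₀) / 2 := by
          field_simp
          ring
        refine ⟨?_, fun hc' => ?_⟩
        · show -(Mr v.1 / (8 * δ₀) / 2) ≤ gg (wf v.1) F d (log (wf v.1 (rs (fL K f) d)))
            (vL K x) (vL K y)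
          have := e2.1
          linarith
        · show 4 * (Mr v.1 / (8 * δ₀)) ≤ gg (wf v.1) F d (log (wf v.1 (rs (fL K f) d)))
            (vL K x) (vL K y)
          have := e2.2 hc'
          linarith
      · obtain ⟨cell2, hcell2⟩ := pot_two hd hf h0 v.1 (wf v.1) (hwf v.1) (hna v.1)
          (hT v.1 hvT)
        refine ⟨cell2, fun x hx y hy hxy => ?_⟩
        have e2 := hcell2 x y (hX x hx y hy hxy)
        rw [← hMr] at e2
        exact e2)
    (μ := μ) hμ (R := (C' + 1) * R)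
    (by
      have h1 : ∑ i : InfinitePlace K ⊕ S₁,
          (1 + max (mm (W i) F d (log (W i (rs (fL K f) d)))) 0) =
          ∑ v : InfinitePlace K, (1 + max (msz d f (wi v)) 0) + ∑ v ∈ S₁, a v := by
        rw [Fintype.sum_sum_type]
        congr 1
        rw [← Finset.sum_coe_sort S₁]
        exact Finset.sum_congr rfl fun v _ => (ha v.1).symm
      rw [h1]
      have h2 : ∑ v ∈ S₁, a v ≤ 1 + ∑ v ∈ T, a v := by
        by_cases hv : v₁ ∈ T
        · have h3 : S₁ ⊆ T := by
            intro v hv'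
            rw [hS₁, Finset.mem_insert, Finset.mem_filter] at hv'
            rcases hv' with rfl | hv'
            · exact hv
            · exact hv'.1
          have h4 : ∑ v ∈ S₁, a v ≤ ∑ v ∈ T, a v :=
            Finset.sum_le_sum_of_subset_of_nonneg h3 fun v _ _ => by linarith [ha1 v]
          linarith
        · rw [hS₁, Finset.sum_insert (by
            rw [Finset.mem_filter]
            exact fun h => hv h.1), ha1' v₁ hv]
          have h4 : ∑ v ∈ T.filter (fun v => ¬ E * a v ≤ Mr v), a v ≤ ∑ v ∈ T, a v :=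
            Finset.sum_le_sum_of_subset_of_nonneg (Finset.filter_subset _ _)
              fun v _ _ => by linarith [ha1 v]
          linarith
      have h3 : ∑ v ∈ T, (1 + max (msz d f (wf v)) 0) = ∑ v ∈ T, a v :=
        Finset.sum_congr rfl fun v _ => (ha v).symm
      have h4 : ∑ v ∈ S, minres v.val d f = ∑ v ∈ S, Mr v :=
        Finset.sum_congr rfl fun v _ => (hMr v).symm
      rw [h3, h4] at hR
      have h5 : R * (1 + max (msz d f (Sum.elim wi (fun v : T => wf v.1) j)) 0 +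
          ∑ v ∈ S, Mr v) ≤ R * (C' * H) := mul_le_mul_of_nonneg_left hii (by linarith)
      have h6 : 1 ≤ R * H := by nlinarith
      have h7 : (C' + 1) * R * (1 + max μ 0 + (p₀ + ∑ v, p v)) = R * (C' * H) + R * H := by
        rw [hH, hP]
        ring
      rw [h7]
      linarith)
    (by
      intro x hx y hy hxy
      have hw := hX x hx y hy hxy
      have h1 := global_le hd hf h0 wi hwi wf hwf hw (S₁ ∪ S₂) (fun v hv =>
        potgood_gg hd hf hrs0 (wf v) (hna v) (hcover v hv) (wd_vL_ne hw))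
      have h2 : ∑ i, n i * G i x y + ∑ v, G' v x y = ∑ v : InfinitePlace K, (v.mult : ℝ) *
          gg (wi v) (ev (fL K f)) d (log (wi v (rs (fL K f) d))) (vL K x) (vL K y) +
        ∑ v ∈ S₁ ∪ S₂, gg (wf v) (ev (fL K f)) d (log (wf v (rs (fL K f) d))) (vL K x)
          (vL K y) := by
        rw [Fintype.sum_sum_type, Finset.sum_union hdisj, ← add_assoc]
        congr 1
        · congr 1
          rw [← Finset.sum_coe_sort S₁]
          exact Finset.sum_congr rfl fun v _ => one_mul _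
        · rw [← Finset.sum_coe_sort S₂]
      rw [h2]
      have h3 := hcanX x hx
      have h4 := hcanX y hy
      have h5 : 1 + max μ 0 + (p₀ + ∑ v, p v) = H := by rw [hH]
      rw [h5]
      linarith)
  refine key.trans ?_
  have hL0 : (0 : ℝ) ≤ Nat.log d X.card := Nat.cast_nonneg _
  have hMM : (0 : ℝ) ≤ M * (M' * 2 : ℕ) * d := by positivity
  calc (M : ℝ) * (M' * 2 : ℕ) * d * (4 + 32 * (1 + B) * (1 + 1 / c) * ((C' + 1) * R) *
        Nat.log d X.card) =
        4 * (M * (M' * 2 : ℕ) * d : ℝ) * (1 + (Y * (C' + 1)) / 4 * R * Nat.log d X.card) := by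
        rw [hY]
        ring
    _ ≤ C * (1 + C * R * Nat.log d X.card) := by
        have h1 : (Y * (C' + 1)) / 4 ≤ C := by
          have : 0 ≤ Y * (C' + 1) := by positivity
          linarith
        have h2 : (Y * (C' + 1)) / 4 * R * Nat.log d X.card ≤ C * R * Nat.log d X.card := by
          have h3 : (0 : ℝ) ≤ R := by linarith
          gcongr
        have h3 : 0 ≤ (Y * (C' + 1)) / 4 * R * Nat.log d X.card := by positivity
        exact mul_le_mul hC2 (by linarith) (by linarith) hC0.le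

end Pool.Agent.TH450.NM
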