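import Pool.Agent.TH450.NM.E
import Pool.Agent.TH450.DL.B

/-!
# Preperiodic points and wandering points, with the minimal resultant
-/

set_option autoImplicit false

namespace Pool.Agent.TH450.NM

open Real Pool.Agent.H951R3.PB NumberField Finset

universe u

/-- the hypothesis on `R`: the sum of the geometric sizes at the infinite places and at `T` is at
most `R` times the sum of one of its terms and of the minimal resultants at the places of `S` -/
def Ratio {K : Type u} [Field K] [NumberField K] (d : ℕ) (E : ℝ)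
    (f : Fin 2 → MvPolynomial (Fin 2) K) (T S : Finset (FinitePlace K)) (R : ℝ) : Prop :=
  ∃ (wi : InfinitePlace K → AbsoluteValue (AlgebraicClosure K) ℝ)
    (wf : FinitePlace K → AbsoluteValue (AlgebraicClosure K) ℝ)
    (j : InfinitePlace K ⊕ T), (∀ v, Ext v.val (wi v)) ∧ (∀ v, Ext v.val (wf v)) ∧
    (∀ v ∈ S, v ∉ T ∨ E * (1 + max (msz d f (wf v)) 0) ≤ minres v.val d f) ∧
    ∑ v : InfinitePlace K, (1 + max (msz d f (wi v)) 0) +
      ∑ v ∈ T, (1 + max (msz d f (wf v)) 0) ≤
      R * (1 + max (msz d f (Sum.elim wi (fun v : T => wf v.1) j)) 0 +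
        ∑ v ∈ S, minres v.val d f)

theorem small_W (d : ℕ) (hd : 2 ≤ d) (D : ℕ) : ∃ C ε E : ℝ, 1 ≤ C ∧ 0 < ε ∧ 1 ≤ E ∧
    ∀ (K : Type u) [Field K] [NumberField K], Module.finrank ℚ K ≤ D →
    ∀ f : Fin 2 → MvPolynomial (Fin 2) K, (∀ i, (f i).IsHomogeneous d) → rs f d ≠ 0 →
    ∀ (T : Finset (FinitePlace K)), (∀ v, v ∉ T → PotGood v.val d f) →
    ∀ R : ℝ, 1 ≤ R → ∀ S : Finset (FinitePlace K), Ratio d E f T S R →
    ∀ S' : Finset (FinitePlace K), ∃ (H : ℝ)
      (wi : InfinitePlace K → AbsoluteValue (AlgebraicClosure K) ℝ)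
      (wf : FinitePlace K → AbsoluteValue (AlgebraicClosure K) ℝ),
      1 ≤ H ∧ (∀ v, Ext v.val (wi v)) ∧ (∀ v, Ext v.val (wf v)) ∧
      ∑ v : InfinitePlace K, (1 + max (msz d f (wi v)) 0) +
        ∑ v ∈ T, (1 + max (msz d f (wf v)) 0) ≤ C * R * H ∧
      ∑ v ∈ S', minres v.val d f ≤ C * R * H ∧
      ∀ X : Finset (Fin 2 → K), (∀ x ∈ X, x ≠ 0) → (∀ x ∈ X, ∀ y ∈ X, x ≠ y → wd x y ≠ 0) →
        (∀ x ∈ X, hcan d f x ≤ ε * H) → (X.card : ℝ) ≤ C * R * log (1 + R) := by
  obtain ⟨C, ε, E, hC, hε, hE, hcore⟩ := core_W.{u} d hd D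
  obtain ⟨C', hC', hsolve⟩ := solve_bound (C := C) (by linarith) 1 le_rfl
  refine ⟨max (C + C * (1 + C)) C', ε, E, le_trans ?_ (le_max_left _ _), hε, hE, ?_⟩
  · nlinarith
  intro K _ _ hfin f hf h0 T hT R hR1 S ⟨wi, wf, j, hwi, hwf, hS, hR⟩ S'
  classical
  obtain ⟨v₁, e, -, heD, hnorm⟩ := Pool.Agent.H951R2.MS.exists_place_above hfin Nat.prime_two
  have hv₁ : Ideal.absNorm v₁.maximalIdeal.asIdeal ≤ 2 ^ D := by
    rw [hnorm]
    exact Nat.pow_le_pow_right (by norm_num) heD
  have hex : ∀ v : FinitePlace K, ∃ w : AbsoluteValue (AlgebraicClosure K) ℝ, Ext v.val w ∧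
      (v ∈ T → w = wf v) ∧ (v ∉ T → PotGoodAt w d f) := by
    intro v
    by_cases h : v ∈ T
    · exact ⟨wf v, hwf v, fun _ => rfl, fun h' => absurd h h'⟩
    · obtain ⟨w, h1, h2⟩ := hT v h
      exact ⟨w, h1, fun h' => absurd h' h, fun _ => h2⟩
  choose wf' hwf' hT' hgood' using hex
  have hsumT : ∑ v ∈ T, (1 + max (msz d f (wf' v)) 0) = ∑ v ∈ T, (1 + max (msz d f (wf v)) 0) :=
    Finset.sum_congr rfl fun v hv => by rw [hT' v hv]
  have hj : Sum.elim wi (fun v : T => wf' v.1) j = Sum.elim wi (fun v : T => wf v.1) j := by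
    rcases j with v | v
    · rfl
    · exact hT' v.1 v.2
  have hM0 : ∀ v : FinitePlace K, 0 ≤ minres v.val d f := fun v =>
    minres_nonneg v.val (Pool.Agent.H951R2.MS.fp_isNonarch v) d f
  have hle : ∑ v ∈ S, minres v.val d f ≤ ∑ v ∈ S ∪ S' \ T, minres v.val d f :=
    Finset.sum_le_sum_of_subset_of_nonneg Finset.subset_union_left fun v _ _ => hM0 v
  obtain ⟨H, hH1, hH2, hH3, hH4⟩ := hcore K f hf h0 wi hwi wf' hwf' T (S ∪ S' \ T) v₁ hv₁
    hgood' (by
      intro v hv
      rw [Finset.mem_union, Finset.mem_sdiff] at hv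
      rcases hv with hv | hv
      · rcases hS v hv with h1 | h1
        · exact Or.inl h1
        · by_cases h2 : v ∈ T
          · right
            rw [hT' v h2]
            exact h1
          · exact Or.inl h2
      · exact Or.inl hv.2) j R hR1 (by
      rw [hsumT, hj]
      refine hR.trans (mul_le_mul_of_nonneg_left ?_ (by linarith))
      linarith)
  rw [hj] at hH2
  have hR' : ∑ v : InfinitePlace K, (1 + max (msz d f (wi v)) 0) +
        ∑ v ∈ T, (1 + max (msz d f (wf' v)) 0) ≤ C * R * H := by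
    rw [hsumT]
    refine hR.trans ?_
    have h1 : R * (1 + max (msz d f (Sum.elim wi (fun v : T => wf v.1) j)) 0 +
        ∑ v ∈ S, minres v.val d f) ≤ R * (C * H) :=
      mul_le_mul_of_nonneg_left (by linarith) (by linarith)
    linarith
  have hI0 : 0 ≤ ∑ v : InfinitePlace K, (1 + max (msz d f (wi v)) 0) :=
    Finset.sum_nonneg fun v _ => by positivity
  have hCm : C + C * (1 + C) ≤ max (C + C * (1 + C)) C' := le_max_left _ _
  have hRH : 0 < R * H := by positivity
  refine ⟨H, wi, wf', hH1, hwi, hwf', ?_, ?_, ?_⟩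
  · refine hR'.trans ?_
    have h1 : C ≤ max (C + C * (1 + C)) C' := by
      have : 0 ≤ C * (1 + C) := by positivity
      linarith
    calc C * R * H = C * (R * H) := by ring
      _ ≤ max (C + C * (1 + C)) C' * (R * H) := mul_le_mul_of_nonneg_right h1 hRH.le
      _ = _ := by ring
  · have h1 : ∑ v ∈ S', minres v.val d f ≤ ∑ v ∈ S ∪ S' \ T, minres v.val d f +
        ∑ v ∈ T, minres v.val d f := by
      have h2 : ∑ v ∈ S', minres v.val d f ≤ ∑ v ∈ S' \ T ∪ T, minres v.val d f := by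
        refine Finset.sum_le_sum_of_subset_of_nonneg ?_ fun v _ _ => hM0 v
        intro v hv
        rw [Finset.mem_union, Finset.mem_sdiff]
        by_cases h : v ∈ T
        · exact Or.inr h
        · exact Or.inl ⟨hv, h⟩
      rw [Finset.sum_union Finset.sdiff_disjoint] at h2
      have h3 : ∑ v ∈ S' \ T, minres v.val d f ≤ ∑ v ∈ S ∪ S' \ T, minres v.val d f :=
        Finset.sum_le_sum_of_subset_of_nonneg Finset.subset_union_right fun v _ _ => hM0 v
      linarith
    have hmx : 0 ≤ max (msz d f (Sum.elim wi (fun v : T => wf v.1) j)) 0 := le_max_right _ _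
    have h2 : ∑ v ∈ S ∪ S' \ T, minres v.val d f ≤ C * H := by linarith
    have h3 : ∑ v ∈ T, minres v.val d f ≤ C * (H + C * R * H) := by
      refine hH3.trans (mul_le_mul_of_nonneg_left ?_ (by linarith))
      linarith
    have h4 : C * H ≤ C * (R * H) := by
      refine mul_le_mul_of_nonneg_left ?_ (by linarith)
      nlinarith
    calc ∑ v ∈ S', minres v.val d f ≤ C * H + C * (H + C * R * H) := by linarith
      _ ≤ C * (R * H) + C * (1 + C) * (R * H) := by nlinarith
      _ = (C + C * (1 + C)) * (R * H) := by ring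
      _ ≤ max (C + C * (1 + C)) C' * (R * H) := mul_le_mul_of_nonneg_right hCm hRH.le
      _ = _ := by ring
  · intro X hX0 hX hcX
    have h1 := hH4 X hX0 hX hcX
    have h2 := hsolve d X.card R R hd hR1 (by linarith) (by linarith) h1
    refine h2.trans ?_
    have hl : 0 ≤ log (1 + R) := log_nonneg (by linarith)
    have h3 : C' ≤ max (C + C * (1 + C)) C' := le_max_right _ _
    gcongr

/-- if `T` has at most `R` elements, then the hypothesis holds for a multiple of `R` -/
theorem ratio_of_card {K : Type u} [Field K] [NumberField K] {d D : ℕ}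
    (hfin : Module.finrank ℚ K ≤ D) (E : ℝ)
    (f : Fin 2 → MvPolynomial (Fin 2) K) (T : Finset (FinitePlace K)) {R : ℝ} (hR1 : 1 ≤ R)
    (hR : (T.card : ℝ) ≤ R) : Ratio d E f T ∅ ((D + 1) * R) := by
  classical
  choose wi hwi using fun v : InfinitePlace K => exists_ext_inf v
  choose wf hwf using fun v : FinitePlace K => exists_ext_fin v
  obtain ⟨v0⟩ : Nonempty (InfinitePlace K) := inferInstance
  obtain ⟨j, -, hj⟩ := Finset.exists_max_image (Finset.univ : Finset (InfinitePlace K ⊕ T))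
    (fun i => msz d f (Sum.elim wi (fun v : T => wf v.1) i)) ⟨Sum.inl v0, Finset.mem_univ _⟩
  refine ⟨wi, wf, j, hwi, hwf, fun v hv => absurd hv (Finset.notMem_empty _), ?_⟩
  set m : ℝ := 1 + max (msz d f (Sum.elim wi (fun v : T => wf v.1) j)) 0 with hm
  have hm1 : 1 ≤ m := by
    have := le_max_right (msz d f (Sum.elim wi (fun v : T => wf v.1) j)) 0
    linarith
  have h1 : ∀ v : InfinitePlace K, 1 + max (msz d f (wi v)) 0 ≤ m := by
    intro v
    have := max_le_max (hj (Sum.inl v) (Finset.mem_univ _)) (le_refl (0 : ℝ))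
    simp only [Sum.elim_inl] at this
    linarith
  have h2 : ∀ v ∈ T, 1 + max (msz d f (wf v)) 0 ≤ m := by
    intro v hv
    have := max_le_max (hj (Sum.inr ⟨v, hv⟩) (Finset.mem_univ _)) (le_refl (0 : ℝ))
    simp only [Sum.elim_inr] at this
    linarith
  have h3 : ∑ v : InfinitePlace K, (1 + max (msz d f (wi v)) 0) ≤ D * m := by
    calc ∑ v : InfinitePlace K, (1 + max (msz d f (wi v)) 0) ≤
        (Finset.univ : Finset (InfinitePlace K)).card • m := Finset.sum_le_card_nsmul _ _ _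
          fun v _ => h1 v
      _ = (Fintype.card (InfinitePlace K) : ℝ) * m := by rw [nsmul_eq_mul, Finset.card_univ]
      _ ≤ D * m := mul_le_mul_of_nonneg_right (card_inf_le hfin) (by linarith)
  have h4 : ∑ v ∈ T, (1 + max (msz d f (wf v)) 0) ≤ R * m := by
    calc ∑ v ∈ T, (1 + max (msz d f (wf v)) 0) ≤ T.card • m :=
          Finset.sum_le_card_nsmul _ _ _ h2
      _ = (T.card : ℝ) * m := nsmul_eq_mul _ _
      _ ≤ R * m := mul_le_mul_of_nonneg_right hR (by linarith)
  rw [Finset.sum_empty, add_zero]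
  have hD0 : (0 : ℝ) ≤ D := Nat.cast_nonneg D
  have h5 : (D : ℝ) * m ≤ D * (R * m) := by
    refine mul_le_mul_of_nonneg_left ?_ hD0
    nlinarith
  linarith

/-- preperiodic points -/
theorem main_pre_W (d : ℕ) (hd : 2 ≤ d) (D : ℕ) : ∃ C : ℝ, 1 ≤ C ∧
    ∀ (K : Type u) [Field K] [NumberField K], Module.finrank ℚ K ≤ D →
    ∀ f : Fin 2 → MvPolynomial (Fin 2) K, (∀ i, (f i).IsHomogeneous d) →
      (∀ x : Fin 2 → AlgebraicClosure K, (∀ i, MvPolynomial.aeval x (f i) = 0) → x = 0) →
    ∀ T : Finset (FinitePlace K), (∀ v, v ∉ T → PotGood v.val d f) →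
    ∀ S : Finset (FinitePlace K), ∀ R : ℝ, 1 ≤ R → Ratio d C f T S R →
    ∀ X : Finset (Fin 2 → K), (∀ x ∈ X, x ≠ 0) →
      (∀ x ∈ X, ∀ y ∈ X, ∀ c : K, x = c • y → x = y) →
      (∀ x ∈ X, ∃ m n : ℕ, m < n ∧ ∃ c : K, c ≠ 0 ∧
        (fun v : Fin 2 → K => fun i => MvPolynomial.eval v (f i))^[n] x =
          c • (fun v : Fin 2 → K => fun i => MvPolynomial.eval v (f i))^[m] x) →
      (X.card : ℝ) ≤ C * R * log (1 + R) := by
  obtain ⟨C, ε, E, hC, hε, hE, hsm⟩ := small_W.{u} d hd D
  refine ⟨max C E, hC.trans (le_max_left _ _), ?_⟩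
  intro K _ _ hfin f hf hz T hT S R hR1 hR X hX0 hXc hpre
  have h0 : rs f d ≠ 0 := rs_ne_of_noZero (by omega) hf hz
  have hX : ∀ x ∈ X, ∀ y ∈ X, x ≠ y → wd x y ≠ 0 := by
    intro x hx y hy hxy hw
    obtain ⟨c, -, hc⟩ := G6aux.parallel (hX0 x hx) (hX0 y hy) hw
    exact hxy (hXc y hy x hx c hc).symm
  have hcan0 : ∀ x ∈ X, hcan d f x = 0 := fun x hx => hcan_pre hd hf h0 (hX0 x hx) (hpre x hx)
  have hR' : Ratio d E f T S R := by
    obtain ⟨wi, wf, j, h1, h2, h3, h4⟩ := hR
    refine ⟨wi, wf, j, h1, h2, fun v hv => ?_, h4⟩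
    rcases h3 v hv with h5 | h5
    · exact Or.inl h5
    · right
      refine le_trans (mul_le_mul_of_nonneg_right (le_max_right C E) ?_) h5
      positivity
  obtain ⟨H, wi, wf, hH1, -, -, -, -, hcount⟩ := hsm K hfin f hf h0 T hT R hR1 S hR' ∅
  have h1 := hcount X hX0 hX (fun x hx => by
    rw [hcan0 x hx]
    positivity)
  refine h1.trans ?_
  have hl : 0 ≤ log (1 + R) := log_nonneg (by linarith)
  have h3 : C ≤ max C E := le_max_left _ _
  gcongr

/-- wandering points, first form -/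
theorem wander_W (d : ℕ) (hd : 2 ≤ d) (D k l : ℕ)
    (P : Fin l → MvPolynomial (Fin 2 × Fin (d + 1)) ℤ) (hP : ∀ j, IsInv.{u} d k (P j)) :
    ∃ C : ℝ, 1 ≤ C ∧ ∀ (K : Type u) [Field K] [NumberField K], Module.finrank ℚ K ≤ D →
    ∀ f : Fin 2 → MvPolynomial (Fin 2) K, (∀ i, (f i).IsHomogeneous d) →
      (∀ x : Fin 2 → AlgebraicClosure K, (∀ i, MvPolynomial.aeval x (f i) = 0) → x = 0) →
    ∀ T : Finset (FinitePlace K), (∀ v, v ∉ T → PotGood v.val d f) →
    ∀ S : Finset (FinitePlace K), ∀ R : ℝ, 1 ≤ R → Ratio d C f T S R →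
    ∀ S' : Finset (FinitePlace K), ∀ x : Fin 2 → K, x ≠ 0 → ¬ Pre f x →
      exp (-C * R * log (1 + R)) * (1 + hmod d k l P f + ∑ v ∈ S', minres v.val d f) ≤
        hcan d f x := by
  obtain ⟨C, ε, E, hC, hε, hE, hsm⟩ := small_W.{u} d hd D
  obtain ⟨C₃, hC₃, h3⟩ := Pool.Agent.TH450.DL.hmod_le_sum.{u} d hd k l P hP
  have hl2 : 0 < log (2 : ℝ) := log_pos (by norm_num)
  have hd1 : (1 : ℝ) < d := by exact_mod_cast (by omega : 1 < d)
  have hlogd : 0 < log (d : ℝ) := Real.log_pos hd1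
  set C₄ : ℝ := C₃ * C + C with hC₄
  have hC₄0 : 0 < C₄ := by positivity
  set E' : ℝ := C * log d + (1 + log (2 * C₄ + 1) / log 2) + max 0 (-log ε) / log 2 with hE'
  have hlC4 : 0 ≤ log (2 * C₄ + 1) := log_nonneg (by linarith)
  have hE'0 : 0 < E' := by positivity
  refine ⟨max (max C E) E', hC.trans ((le_max_left _ _).trans (le_max_left _ _)), ?_⟩
  intro K _ _ hfin f hf hz T hT S R hR1 hR S' x hx hpre
  have h0 : rs f d ≠ 0 := rs_ne_of_noZero (by omega) hf hz
  have hlR : log 2 ≤ log (1 + R) := log_le_log (by norm_num) (by linarith)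
  have hl0 : 0 < log (1 + R) := lt_of_lt_of_le hl2 hlR
  have hRl : 0 < R * log (1 + R) := by positivity
  have hh0 : 0 ≤ hmod d k l P f := Height.logHeight_nonneg _
  have hM0 : 0 ≤ ∑ v ∈ S', minres v.val d f := Finset.sum_nonneg fun v _ =>
    minres_nonneg v.val (Pool.Agent.H951R2.MS.fp_isNonarch v) d f
  have hR' : Ratio d E f T S R := by
    obtain ⟨wi, wf, j, h1, h2, h3, h4⟩ := hR
    refine ⟨wi, wf, j, h1, h2, fun v hv => ?_, h4⟩
    rcases h3 v hv with h5 | h5
    · exact Or.inl h5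
    · right
      refine le_trans (mul_le_mul_of_nonneg_right
        ((le_max_right C E).trans (le_max_left _ E')) ?_) h5
      positivity
  obtain ⟨H, wi, wf, hH1, hwi, hwf, hsum, hres, hcount⟩ :=
    hsm K hfin f hf h0 T hT R hR1 S hR' S'
  have h4 := Pool.Agent.TH450.DL.wander_gen hd hf h0 (A := C * R * log (1 + R)) (η := ε * H)
    (by positivity) (by positivity) (fun X hX0 hX hcX => hcount X hX0 hX hcX) hx hpre
  have h5 := h3 K f hf h0 wi hwi wf hwf T hT
  have h6 : hmod d k l P f ≤ C₃ * (C * R * H) :=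
    h5.trans (mul_le_mul_of_nonneg_left hsum hC₃.le)
  have h7 := Pool.Agent.TH450.DL.absorb hC₄0.le hR1
  have h8 : 1 + hmod d k l P f + ∑ v ∈ S', minres v.val d f ≤
      exp ((1 + log (2 * C₄ + 1) / log 2) * (R * log (1 + R))) * H := by
    refine le_trans ?_ (mul_le_mul_of_nonneg_right h7 (by linarith))
    have h9 : 0 ≤ C₄ * H := by positivity
    have h10 : C₃ * (C * R * H) + C * R * H = C₄ * R * H := by
      rw [hC₄]
      ring
    nlinarith
  have h9 : exp (-(max 0 (-log ε) / log 2 * (R * log (1 + R)))) ≤ ε := by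
    have h10 : log 2 ≤ R * log (1 + R) := by nlinarith
    have h11 : max 0 (-log ε) ≤ max 0 (-log ε) / log 2 * (R * log (1 + R)) := by
      rw [div_mul_eq_mul_div, le_div_iff₀ hl2]
      exact mul_le_mul_of_nonneg_left h10 (le_max_left _ _)
    calc exp (-(max 0 (-log ε) / log 2 * (R * log (1 + R)))) ≤ exp (log ε) := by
          refine exp_le_exp.2 ?_
          have := le_max_right 0 (-log ε)
          linarith
      _ = ε := exp_log hε
  calc exp (-max (max C E) E' * R * log (1 + R)) *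
        (1 + hmod d k l P f + ∑ v ∈ S', minres v.val d f)
      ≤ exp (-E' * (R * log (1 + R))) *
        (1 + hmod d k l P f + ∑ v ∈ S', minres v.val d f) := by
        refine mul_le_mul_of_nonneg_right (exp_le_exp.2 ?_) (by linarith)
        have h12 : E' * (R * log (1 + R)) ≤ max (max C E) E' * (R * log (1 + R)) :=
          mul_le_mul_of_nonneg_right (le_max_right _ _) hRl.le
        linarith
    _ ≤ exp (-E' * (R * log (1 + R))) *
        (exp ((1 + log (2 * C₄ + 1) / log 2) * (R * log (1 + R))) * H) :=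
        mul_le_mul_of_nonneg_left h8 (exp_pos _).le
    _ = exp (-(max 0 (-log ε) / log 2 * (R * log (1 + R)))) * (H *
        exp (-(C * R * log (1 + R) * log d))) := by
        have e1 : exp (-E' * (R * log (1 + R))) *
            exp ((1 + log (2 * C₄ + 1) / log 2) * (R * log (1 + R))) =
            exp (-(max 0 (-log ε) / log 2 * (R * log (1 + R)))) *
              exp (-(C * R * log (1 + R) * log d)) := by
          rw [← exp_add, ← exp_add]
          congr 1
          rw [hE']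
          ring
        calc exp (-E' * (R * log (1 + R))) *
            (exp ((1 + log (2 * C₄ + 1) / log 2) * (R * log (1 + R))) * H) =
            (exp (-E' * (R * log (1 + R))) *
              exp ((1 + log (2 * C₄ + 1) / log 2) * (R * log (1 + R)))) * H := by ring
          _ = _ := by
            rw [e1]
            ring
    _ ≤ ε * (H * exp (-(C * R * log (1 + R) * log d))) :=
        mul_le_mul_of_nonneg_right h9 (by positivity)
    _ = ε * H * exp (-(C * R * log (1 + R) * log d)) := by ring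
    _ ≤ hcan d f x := h4

end Pool.Agent.TH450.NM
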