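import Pool.Agent.TH450.NM.F

/-!
# Wandering points, second form
-/

set_option autoImplicit false

namespace Pool.Agent.TH450.NM

open Real Pool.Agent.H951R3.PB NumberField Finset

universe u

theorem wander_full (d : ℕ) (hd : 2 ≤ d) (D k l : ℕ)
    (P : Fin l → MvPolynomial (Fin 2 × Fin (d + 1)) ℤ) (hP : ∀ j, IsInv.{u} d k (P j)) :
    ∃ C : ℝ, 1 ≤ C ∧ ∀ (K : Type u) [Field K] [NumberField K], Module.finrank ℚ K ≤ D →
    ∀ f : Fin 2 → MvPolynomial (Fin 2) K, (∀ i, (f i).IsHomogeneous d) →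
      (∀ x : Fin 2 → AlgebraicClosure K, (∀ i, MvPolynomial.aeval x (f i) = 0) → x = 0) →
    ∀ T : Finset (FinitePlace K), (∀ v, v ∉ T → PotGood v.val d f) →
    ∀ S : Finset (FinitePlace K), ∀ R : ℝ, 1 ≤ R → ((T.card : ℝ) ≤ R ∨ Ratio d C f T S R) →
    ∀ S' : Finset (FinitePlace K), ∀ x : Fin 2 → K, x ≠ 0 → ¬ Pre f x →
      exp (-C * R * log (1 + R)) * (1 + hmod d k l P f + ∑ v ∈ S', minres v.val d f) ≤
        hcan d f x := by
  obtain ⟨C, hC, h1⟩ := wander_W.{u} d hd D k l P hP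
  have hl2 : 0 < log (2 : ℝ) := log_pos (by norm_num)
  have hD0 : (0 : ℝ) ≤ D := Nat.cast_nonneg D
  have hlD : 0 ≤ log ((D : ℝ) + 1) := log_nonneg (by linarith)
  set C' : ℝ := C * (D + 1) * (1 + log ((D : ℝ) + 1) / log 2) with hC'
  have hCC' : C ≤ C' := by
    rw [hC']
    have h2 : 0 ≤ log ((D : ℝ) + 1) / log 2 := by positivity
    have h3 : C * 1 ≤ C * (D + 1) := mul_le_mul_of_nonneg_left (by linarith) (by linarith)
    have h4 : C * (D + 1) * 1 ≤ C * (D + 1) * (1 + log ((D : ℝ) + 1) / log 2) :=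
      mul_le_mul_of_nonneg_left (by linarith) (by positivity)
    linarith
  refine ⟨C', hC.trans hCC', ?_⟩
  intro K _ _ hfin f hf hz T hT S R hR1 hR S' x hx hpre
  have hlR : log 2 ≤ log (1 + R) := log_le_log (by norm_num) (by linarith)
  have hl0 : 0 < log (1 + R) := lt_of_lt_of_le hl2 hlR
  have hh0 : 0 ≤ hmod d k l P f := Height.logHeight_nonneg _
  have hM0 : 0 ≤ ∑ v ∈ S', minres v.val d f := Finset.sum_nonneg fun v _ =>
    minres_nonneg v.val (Pool.Agent.H951R2.MS.fp_isNonarch v) d f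
  rcases hR with hR | hR
  · have h2 : 1 ≤ ((D : ℝ) + 1) * R := by nlinarith
    have h3 := h1 K hfin f hf hz T hT ∅ (((D : ℝ) + 1) * R) h2
      (ratio_of_card hfin C f T hR1 hR) S' x hx hpre
    refine le_trans (mul_le_mul_of_nonneg_right (exp_le_exp.2 ?_) (by linarith)) h3
    have h4 : log (1 + ((D : ℝ) + 1) * R) ≤ (1 + log ((D : ℝ) + 1) / log 2) * log (1 + R) := by
      have h5 : log (1 + ((D : ℝ) + 1) * R) ≤ log (((D : ℝ) + 1) * (1 + R)) :=
        log_le_log (by positivity) (by nlinarith)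
      rw [log_mul (by positivity) (by positivity)] at h5
      have h6 : log ((D : ℝ) + 1) ≤ log ((D : ℝ) + 1) / log 2 * log (1 + R) := by
        rw [div_mul_eq_mul_div, le_div_iff₀ hl2]
        exact mul_le_mul_of_nonneg_left hlR hlD
      linarith
    have h5 : C * (((D : ℝ) + 1) * R) * log (1 + ((D : ℝ) + 1) * R) ≤
        C' * R * log (1 + R) := by
      calc C * (((D : ℝ) + 1) * R) * log (1 + ((D : ℝ) + 1) * R) ≤
          C * (((D : ℝ) + 1) * R) * ((1 + log ((D : ℝ) + 1) / log 2) * log (1 + R)) :=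
            mul_le_mul_of_nonneg_left h4 (by positivity)
        _ = C' * R * log (1 + R) := by
            rw [hC']
            ring
    linarith
  · have hR' : Ratio d C f T S R := by
      obtain ⟨wi, wf, j, h1, h2, h3, h4⟩ := hR
      refine ⟨wi, wf, j, h1, h2, fun v hv => ?_, h4⟩
      rcases h3 v hv with h5 | h5
      · exact Or.inl h5
      · right
        refine le_trans (mul_le_mul_of_nonneg_right hCC' ?_) h5
        positivity
    have h3 := h1 K hfin f hf hz T hT S R hR1 hR' S' x hx hpre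
    refine le_trans (mul_le_mul_of_nonneg_right (exp_le_exp.2 ?_) (by linarith)) h3
    have h5 : C * (R * log (1 + R)) ≤ C' * (R * log (1 + R)) :=
      mul_le_mul_of_nonneg_right hCC' (by positivity)
    linarith

end Pool.Agent.TH450.NM
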